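import Pool.Agent.helper50.BS.SpecC

set_option autoImplicit false
set_option linter.unusedVariables false

open Finset

open scoped Classical

noncomputable section

namespace Pool.Agent.BS

lemma CG2_mem {X : Type} {adj : X → X → Prop} {K : Finset X} {a b : X} (h : Reach adj K a b)
    (ha : a ∈ K) : b ∈ K := by
  induction h with
  | refl => exact ha
  | tail _ h _ => exact h.2

lemma CG2_trans {X : Type} {adj : X → X → Prop} {K : Finset X} {a b c : X}
    (h1 : Reach adj K a b) (h2 : Reach adj K b c) : Reach adj K a c :=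
  Relation.ReflTransGen.trans h1 h2

lemma CG2_symm {X : Type} {adj : X → X → Prop} (hs : ∀ a b, adj a b → adj b a) {K : Finset X}
    {a b : X} (h : Reach adj K a b) (ha : a ∈ K) : Reach adj K b a := by
  induction h with
  | refl => exact Relation.ReflTransGen.refl
  | tail h1 h2 ih =>
    rename_i u v
    exact Relation.ReflTransGen.head ⟨hs _ _ h2.1, CG2_mem h1 ha⟩ ih

/-- the component of `a` in `A` -/
def CG2_comp {X : Type} (adj : X → X → Prop) (A : Finset X) (a : X) : Finset X :=
  A.filter (fun b => Reach adj A a b)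

lemma CG2_inside {X : Type} {adj : X → X → Prop} {A : Finset X} {a b c : X}
    (hab : Reach adj A a b) (h : Reach adj A b c) : Reach adj (CG2_comp adj A a) b c := by
  induction h with
  | refl => exact Relation.ReflTransGen.refl
  | tail h1 h2 ih =>
    refine Relation.ReflTransGen.tail ih ⟨h2.1, ?_⟩
    exact mem_filter.2 ⟨h2.2, CG2_trans hab (Relation.ReflTransGen.tail h1 h2)⟩

lemma CG2_conn {X : Type} {adj : X → X → Prop} (hs : ∀ a b, adj a b → adj b a) {A : Finset X}
    {a : X} (ha : a ∈ A) : Conn adj (CG2_comp adj A a) := by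
  refine ⟨⟨a, mem_filter.2 ⟨ha, Relation.ReflTransGen.refl⟩⟩, ?_⟩
  intro b hb c hc
  rw [CG2_comp, mem_filter] at hb hc
  exact CG2_inside hb.2 (CG2_trans (CG2_symm hs hb.2 ha) hc.2)

theorem CG2 : CG2_stmt := by
  intro X adj A hs
  refine ⟨A.image (fun a => CG2_comp adj A a), ?_, ?_, ?_⟩
  · intro K hK
    obtain ⟨a, ha, rfl⟩ := mem_image.1 hK
    exact CG2_conn hs ha
  · intro K hK L hL hne htouch
    obtain ⟨a, ha, rfl⟩ := mem_image.1 hK
    obtain ⟨b, hb, rfl⟩ := mem_image.1 hL
    obtain ⟨x, hx, y, hy, hxy⟩ := htouch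
    rw [CG2_comp, mem_filter] at hx hy
    apply hne
    have hxy' : Reach adj A x y := by
      rcases hxy with rfl | h
      · exact Relation.ReflTransGen.refl
      · exact Relation.ReflTransGen.single ⟨h, hy.1⟩
    have hab : Reach adj A a b := CG2_trans (CG2_trans hx.2 hxy') (CG2_symm hs hy.2 hb)
    ext c
    simp only [CG2_comp, mem_filter]
    constructor
    · rintro ⟨h1, h2⟩
      exact ⟨h1, CG2_trans (CG2_symm hs hab ha) h2⟩
    · rintro ⟨h1, h2⟩
      exact ⟨h1, CG2_trans hab h2⟩
  · ext c
    simp only [mem_biUnion, mem_image, id]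
    constructor
    · rintro ⟨K, ⟨a, ha, rfl⟩, hc⟩
      exact (mem_filter.1 hc).1
    · intro hc
      exact ⟨_, ⟨c, hc, rfl⟩, mem_filter.2 ⟨hc, Relation.ReflTransGen.refl⟩⟩

theorem CG4 : CG4_stmt := by
  intro X R _ adj ω T hs h0 hmul
  induction T using Finset.induction_on with
  | empty => intro _; simpa using h0
  | insert K T hK ih =>
    intro hc
    rw [biUnion_insert, prod_insert hK, id, hmul, ih]
    · intro a ha b hb hab
      exact hc a (mem_insert_of_mem ha) b (mem_insert_of_mem hb) hab
    · rintro ⟨x, hx, y, hy, hxy⟩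
      obtain ⟨L, hL, hyL⟩ := mem_biUnion.1 hy
      refine hc K (mem_insert_self _ _) L (mem_insert_of_mem hL) ?_ ⟨x, hx, y, hyL, hxy⟩
      rintro rfl
      exact hK hL

end Pool.Agent.BS

end
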