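import Pool.Agent.helper50.BS.SpecC

set_option autoImplicit false
set_option linter.unusedVariables false

open Finset

open scoped Classical

noncomputable section

namespace Pool.Agent.BS

lemma CM1_zpow {G ι : Type} [CommGroup G] (s : Finset ι) (e : ι → ℤ) (a : G) :
    ∏ i ∈ s, a ^ e i = a ^ (∑ i ∈ s, e i) := by
  induction s using Finset.induction_on with
  | empty => simp
  | insert i s hi ih => rw [prod_insert hi, sum_insert hi, ih, zpow_add]

lemma CM1_sum {B : Type} (U Q' : Finset B) (h : Q' ⊆ U) :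
    ∑ Q ∈ U.powerset.filter (fun Q => Q' ⊆ Q), (-1 : ℤ) ^ (Q \ Q').card =
      if U \ Q' = ∅ then 1 else 0 := by
  have h1 := sum_powerset_neg_one_pow_card (x := U \ Q')
  rw [← h1]
  refine Finset.sum_nbij' (fun Q => Q \ Q') (fun D => D ∪ Q') ?_ ?_ ?_ ?_ ?_
  · intro Q hQ
    rw [mem_filter, mem_powerset] at hQ
    rw [mem_powerset]
    exact sdiff_subset_sdiff hQ.1 (subset_refl _)
  · intro D hD
    rw [mem_powerset] at hD
    rw [mem_filter, mem_powerset]
    exact ⟨union_subset (hD.trans sdiff_subset) h, subset_union_right⟩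
  · intro Q hQ
    rw [mem_filter, mem_powerset] at hQ
    exact sdiff_union_of_subset hQ.2
  · intro D hD
    rw [mem_powerset] at hD
    ext a
    simp only [mem_sdiff, mem_union]
    constructor
    · rintro ⟨h1 | h1, h2⟩
      · exact h1
      · exact absurd h1 h2
    · intro h1
      exact ⟨Or.inl h1, (mem_sdiff.1 (hD h1)).2⟩
  · intro Q hQ
    rfl

theorem CM1 : CM1_stmt := by
  intro B G _ f U
  unfold mob
  rw [Finset.prod_comm' (s' := fun Q' => U.powerset.filter (fun Q => Q' ⊆ Q)) (t' := U.powerset)]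
  · have h1 : ∀ Q' ∈ U.powerset, ∏ Q ∈ U.powerset.filter (fun Q => Q' ⊆ Q),
        f Q' ^ ((-1 : ℤ) ^ (Q \ Q').card) = if Q' = U then f U else 1 := by
      intro Q' hQ'
      rw [mem_powerset] at hQ'
      rw [CM1_zpow, CM1_sum U Q' hQ']
      by_cases h : Q' = U
      · subst h; simp
      · rw [if_neg h, if_neg, zpow_zero]
        rw [sdiff_eq_empty_iff_subset]
        exact fun h2 => h (Subset.antisymm hQ' h2)
    rw [Finset.prod_congr rfl h1]
    simp
  · intro Q Q'
    simp only [mem_powerset, mem_filter]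
    constructor
    · rintro ⟨h1, h2⟩
      exact ⟨⟨h1, h2⟩, h2.trans h1⟩
    · rintro ⟨⟨h1, h2⟩, _⟩
      exact ⟨h1, h2⟩

theorem CM2 : CM2_stmt := by
  intro B G _ f m U
  induction U using Finset.strongInduction with
  | H U ih =>
    intro h
    have h1 : ∏ Q ∈ U.powerset, m Q = ∏ Q ∈ U.powerset, mob f Q := by
      rw [h U (subset_refl _), CM1]
    rw [← Finset.mul_prod_erase _ _ (mem_powerset_self U),
      ← Finset.mul_prod_erase _ _ (mem_powerset_self U)] at h1
    have h2 : ∏ Q ∈ U.powerset.erase U, m Q = ∏ Q ∈ U.powerset.erase U, mob f Q := by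
      refine Finset.prod_congr rfl (fun Q hQ => ?_)
      rw [mem_erase, mem_powerset] at hQ
      exact ih Q (Finset.ssubset_iff_subset_ne.2 ⟨hQ.2, hQ.1⟩)
        (fun V hV => h V (hV.trans hQ.2))
    rw [h2] at h1
    exact mul_right_cancel h1

end Pool.Agent.BS

end
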