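import Pool.Agent.helper50.BS.SpecC

set_option autoImplicit false
set_option linter.unusedVariables false

open Finset

open scoped Classical

noncomputable section

namespace Pool.Agent.BS

lemma CP1_dvd (P : Type) (i : P) (p : MvPolynomial P ℤ) :
    (MvPolynomial.X i : MvPolynomial P ℤ) ∣ p -
      MvPolynomial.aeval (Function.update (MvPolynomial.X : P → MvPolynomial P ℤ) i 0) p := by
  induction p using MvPolynomial.induction_on with
  | C a => simp
  | add p q hp hq =>
    have e : p + q - MvPolynomial.aeval (Function.update (MvPolynomial.X : P → MvPolynomial P ℤ) i 0) (p + q)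
        = (p - MvPolynomial.aeval (Function.update (MvPolynomial.X : P → MvPolynomial P ℤ) i 0) p) +
          (q - MvPolynomial.aeval (Function.update (MvPolynomial.X : P → MvPolynomial P ℤ) i 0) q) := by
      rw [map_add]; ring
    rw [e]
    exact dvd_add hp hq
  | mul_X p j hp =>
    rw [map_mul, MvPolynomial.aeval_X]
    by_cases h : j = i
    · subst h
      rw [Function.update_self, mul_zero, sub_zero]
      exact dvd_mul_left _ _
    · rw [Function.update_of_ne h, ← sub_mul]
      exact dvd_mul_of_dvd_left hp _

theorem CP1 : CP1_stmt := by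
  intro P S p h
  refine Finset.prod_dvd_of_isRelPrime ?_ ?_
  · intro i hi j hj hij
    have hirr : Irreducible (MvPolynomial.X i : MvPolynomial P ℤ) := MvPolynomial.X_prime.irreducible
    show IsRelPrime (MvPolynomial.X i : MvPolynomial P ℤ) (MvPolynomial.X j)
    rw [hirr.isRelPrime_iff_not_dvd, MvPolynomial.X_dvd_X]
    exact hij
  · intro i hi
    have h1 := CP1_dvd P i p
    rw [h i hi, sub_zero] at h1
    exact h1

end Pool.Agent.BS

end
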