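import Pool.Agent.helper50.BS.SpecC

set_option autoImplicit false
set_option linter.unusedVariables false

open Finset

open scoped Classical

noncomputable section

namespace Pool.Agent.BS

lemma CX4_map {P R S : Type} [CommRing R] [CommRing S] (φ : R →+* S) (ic : P → P → Prop)
    (ω : P → R) (F : Finset P) : φ (Xi ic ω F) = Xi ic (fun a => φ (ω a)) F := by
  unfold Xi
  rw [map_sum]
  exact Finset.sum_congr rfl (fun T _ => map_prod φ _ _)

lemma CX4_zero {P R : Type} [CommRing R] (ic : P → P → Prop) (ω : P → R) (F : Finset P) (i : P) :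
    Xi ic (Function.update ω i 0) F = Xi ic ω (F.erase i) := by
  unfold Xi
  have h1 : ∀ T ∈ F.powerset.filter (fun T => Compat ic T), i ∈ T →
      ∏ a ∈ T, Function.update ω i 0 a = 0 := by
    intro T _ hi
    exact Finset.prod_eq_zero hi (by simp)
  have h2 : (F.erase i).powerset.filter (fun T => Compat ic T) =
      (F.powerset.filter (fun T => Compat ic T)).filter (fun T => i ∉ T) := by
    ext T
    simp only [mem_filter, mem_powerset]
    constructor
    · rintro ⟨h, hc⟩
      refine ⟨⟨h.trans (erase_subset _ _), hc⟩, fun hi => ?_⟩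
      exact (notMem_erase i F) (h hi)
    · rintro ⟨⟨h, hc⟩, hi⟩
      refine ⟨fun a ha => mem_erase.2 ⟨fun e => hi (e ▸ ha), h ha⟩, hc⟩
  rw [h2, ← Finset.sum_filter_add_sum_filter_not (F.powerset.filter (fun T => Compat ic T))
    (fun T => i ∉ T)]
  have h3 : ∑ T ∈ (F.powerset.filter (fun T => Compat ic T)).filter (fun T => ¬ i ∉ T),
      ∏ a ∈ T, Function.update ω i 0 a = 0 := by
    refine Finset.sum_eq_zero (fun T hT => ?_)
    rw [mem_filter] at hT
    exact h1 T hT.1 (not_not.1 hT.2)
  rw [h3, add_zero]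
  refine Finset.sum_congr rfl (fun T hT => Finset.prod_congr rfl (fun a ha => ?_))
  rw [mem_filter] at hT
  have hne : a ≠ i := by
    rintro rfl
    exact hT.2 ha
  exact Function.update_of_ne hne _ _

/-- the involution -/
def CX4_inv {P : Type} (i : P) (F : Finset P) : Finset P :=
  if i ∈ F then F.erase i else insert i F

lemma CX4_inv_inv {P : Type} (i : P) (F : Finset P) : CX4_inv i (CX4_inv i F) = F := by
  unfold CX4_inv
  by_cases h : i ∈ F
  · rw [if_pos h, if_neg (notMem_erase i F), insert_erase h]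
  · rw [if_neg h, if_pos (mem_insert_self i F), erase_insert h]

lemma CX4_inv_erase {P : Type} (i : P) (F : Finset P) : (CX4_inv i F).erase i = F.erase i := by
  unfold CX4_inv
  by_cases h : i ∈ F
  · rw [if_pos h]
    ext a
    simp only [mem_erase]
    tauto
  · rw [if_neg h, erase_insert h, erase_eq_of_notMem h]

lemma CX4_inv_sub {P : Type} (i : P) (F G : Finset P) (hi : i ∈ G) (h : F ⊆ G) :
    CX4_inv i F ⊆ G := by
  unfold CX4_inv
  split_ifs with h1
  · exact (erase_subset _ _).trans h
  · exact insert_subset hi h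

lemma CX4_inv_even {P : Type} (i : P) (F G : Finset P) (hi : i ∈ G) (h : F ⊆ G) :
    Even (G \ CX4_inv i F).card ↔ ¬ Even (G \ F).card := by
  have h1 := card_sdiff_add_card_eq_card h
  have h2 := card_sdiff_add_card_eq_card (CX4_inv_sub i F G hi h)
  have h3 : (CX4_inv i F).card = F.card + 1 ∨ (CX4_inv i F).card + 1 = F.card := by
    unfold CX4_inv
    split_ifs with h4
    · right; exact card_erase_add_one h4
    · left; exact card_insert_of_notMem h4
  rw [Nat.even_iff, Nat.even_iff]
  omega

theorem CX4 (hCP1 : CP1_stmt) : CX4_stmt := by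
  intro P R _ ic ω G hG
  have key : (∏ i ∈ G, (MvPolynomial.X i : MvPolynomial P ℤ)) ∣
      ((∏ F ∈ G.powerset with Even (G \ F).card, Xi ic (MvPolynomial.X : P → MvPolynomial P ℤ) F) -
        ∏ F ∈ G.powerset with ¬ Even (G \ F).card,
          Xi ic (MvPolynomial.X : P → MvPolynomial P ℤ) F) := by
    refine hCP1 P G _ (fun i hi => ?_)
    rw [map_sub, map_prod, map_prod, sub_eq_zero]
    have e1 : ∀ F : Finset P, (MvPolynomial.aeval
        (Function.update (MvPolynomial.X : P → MvPolynomial P ℤ) i 0))
        (Xi ic (MvPolynomial.X : P → MvPolynomial P ℤ) F) =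
        Xi ic (MvPolynomial.X : P → MvPolynomial P ℤ) (F.erase i) := by
      intro F
      rw [← CX4_zero]
      have := CX4_map (MvPolynomial.aeval
        (Function.update (MvPolynomial.X : P → MvPolynomial P ℤ) i 0)).toRingHom ic
        (MvPolynomial.X : P → MvPolynomial P ℤ) F
      simp only [AlgHom.toRingHom_eq_coe, RingHom.coe_coe, MvPolynomial.aeval_X] at this
      exact this
    simp only [e1]
    refine Finset.prod_nbij' (CX4_inv i) (CX4_inv i) ?_ ?_ ?_ ?_ ?_
    · intro F hF
      rw [mem_filter, mem_powerset] at hF ⊢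
      refine ⟨CX4_inv_sub i F G hi hF.1, ?_⟩
      rw [CX4_inv_even i F G hi hF.1, not_not]
      exact hF.2
    · intro F hF
      rw [mem_filter, mem_powerset] at hF ⊢
      refine ⟨CX4_inv_sub i F G hi hF.1, ?_⟩
      rw [CX4_inv_even i F G hi hF.1]
      exact hF.2
    · intro F _
      exact CX4_inv_inv i F
    · intro F _
      exact CX4_inv_inv i F
    · intro F _
      rw [CX4_inv_erase]
  have h2 := map_dvd (MvPolynomial.aeval ω : MvPolynomial P ℤ →ₐ[ℤ] R).toRingHom key
  rw [map_sub, map_prod, map_prod, map_prod] at h2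
  have e2 : ∀ F : Finset P, (MvPolynomial.aeval ω : MvPolynomial P ℤ →ₐ[ℤ] R).toRingHom
      (Xi ic (MvPolynomial.X : P → MvPolynomial P ℤ) F) = Xi ic ω F := by
    intro F
    rw [CX4_map]
    congr 1
    funext a
    simp
  simp only [e2] at h2
  have e3 : ∀ a : P, (MvPolynomial.aeval ω : MvPolynomial P ℤ →ₐ[ℤ] R).toRingHom
      (MvPolynomial.X a) = ω a := by
    intro a
    simp
  simp only [e3] at h2
  exact h2

end Pool.Agent.BS

end
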