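import Pool.Agent.helper50.BS.SpecU

set_option autoImplicit false
set_option linter.unusedVariables false

open scoped Classical

noncomputable section

namespace Pool.Agent.helper50.BT

open Pool.Agent.helper81.PL

lemma UA1_xor (p q : Prop) [Decidable p] [Decidable q] :
    xor (decide p) (decide q) = true ↔ ¬ (p ↔ q) := by
  by_cases hp : p <;> by_cases hq : q <;> simp [hp, hq]

theorem UA1 : UA1_stmt := by
  intro n E h
  refine ⟨?_, ?_, ?_, ?_, ?_⟩
  · intro W
    ext e
    simp only [BS.IG.dl, helper81.BS.dl, ig, Finset.mem_filter, fmem, UA1_xor]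
  · intro W
    ext e
    simp only [BS.IG.EW, helper81.BS.tch, ig, Finset.mem_filter, fmem, Bool.or_eq_true,
      decide_eq_true_eq]
  · intro B W
    simp only [BS.IG.tt, helper81.BS.tt, helper81.BS.tch, ig, fmem, Bool.or_eq_true,
      decide_eq_true_eq]
  · intro W
    exact Finset.filter_subset _ _
  · intro e he
    obtain ⟨h1, h2⟩ := h e he
    have h3 : n * (e / n) + e % n = e := Nat.div_add_mod e n
    have h4 : e / n + 1 ≤ n := by omega
    have h5 : n * (e / n) + n ≤ n * n := by
      calc n * (e / n) + n = n * (e / n + 1) := by ring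
        _ ≤ n * n := Nat.mul_le_mul_left _ h4
    omega

end Pool.Agent.helper50.BT

end
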