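import Pool.Agent.helper50.BS.SpecU

set_option autoImplicit false
set_option linter.unusedVariables false
set_option linter.dupNamespace false

open scoped Classical

noncomputable section

namespace Pool.Agent.helper50.BT

open Pool.Agent.helper81.PL

lemma UC5_cf_mul {M n k l : ℕ} (T : BS.TR M n k l) (r r' : T.R) :
    T.cf 0 0 0 (r * r') = T.cf 0 0 0 r * T.cf 0 0 0 r' := by
  rw [T.cf_mul 0 0 0 r r' (Nat.zero_le _) (Nat.zero_le _) (Nat.zero_le _)]
  simp

lemma UC5_cf_one {M n k l : ℕ} (T : BS.TR M n k l) : T.cf 0 0 0 1 = 1 := by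
  have h := T.cf_mon 0 0 0 0 0 0 (Nat.zero_le _) (Nat.zero_le _) (Nat.zero_le _)
  simpa using h

lemma UC5_cf_prod {M n k l : ℕ} (T : BS.TR M n k l) {ι : Type} (L : List ι) (r : ι → T.R)
    (h : ∀ i ∈ L, T.cf 0 0 0 (r i) = 1) : T.cf 0 0 0 (L.map r).prod = 1 := by
  induction L with
  | nil => simpa using UC5_cf_one T
  | cons i L ih =>
    rw [List.map_cons, List.prod_cons, UC5_cf_mul, h i (by simp),
      ih (fun j hj => h j (List.mem_cons_of_mem _ hj)), one_mul]

lemma UC5_par (m : ℕ) : eqb (m % 2) 0 = true ↔ Even m := by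
  unfold eqb
  rw [decide_eq_true_iff, Nat.even_iff]

lemma UC5_mob {B G : Type} [CommGroup G] (Z : Finset B → G) (Q : Finset B) :
    BS.mob Z Q = (∏ Q' ∈ Q.powerset with Even (Q \ Q').card, Z Q') *
      (∏ Q' ∈ Q.powerset with ¬ Even (Q \ Q').card, Z Q')⁻¹ := by
  unfold BS.mob
  rw [← Finset.prod_filter_mul_prod_filter_not Q.powerset (fun F => Even (Q \ F).card)]
  congr 1
  · exact Finset.prod_congr rfl (fun F hF => by
      rw [(Finset.mem_filter.1 hF).2.neg_one_pow, zpow_one])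
  · rw [← Finset.prod_inv_distrib]
    exact Finset.prod_congr rfl (fun F hF => by
      rw [(Nat.not_even_iff_odd.1 (Finset.mem_filter.1 hF).2).neg_one_pow, zpow_neg_one])

lemma UC5_mob' {B G : Type} [inst : DecidableEq B] [CommGroup G] (Z : Finset B → G)
    (Q : Finset B) :
    BS.mob Z Q = (∏ Q' ∈ Q.powerset with Even (Q \ Q').card, Z Q') *
      (∏ Q' ∈ Q.powerset with ¬ Even (Q \ Q').card, Z Q')⁻¹ := by
  have e : inst = fun a b => Classical.propDecidable (a = b) := Subsingleton.elim _ _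
  subst e
  exact UC5_mob Z Q

theorem UC5 (hUA1 : UA1_stmt) (hUB1 : UB1_stmt) (hUB5 : UB5_stmt) (hUB6 : UB6_stmt)
    (hUB7 : UB7_stmt) (hUC3 : UC3_stmt) (hUC4 : UC4_stmt) : UC5_stmt := by
  intro N M n k E W PP Tl h T Z hyp hZ Q hQ hQc
  have hbig := hyp.big
  unfold Big at hbig
  have hN1 : (n + 1) * (k + 1) * (3 * k + 1) ≤ N := by
    try generalize (n + 1) * (k + 1) * (3 * k + 1) = t at hbig ⊢
    try generalize n * n = t' at hbig ⊢
    generalize 4 ^ (2 * k) = t1 at hbig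
    try generalize 2 ^ (6 * k + 1) = t2 at hbig ⊢
    omega
  have hN2 : M ≤ N := by
    try generalize (n + 1) * (k + 1) * (3 * k + 1) = t at hbig ⊢
    try generalize n * n = t' at hbig ⊢
    generalize 4 ^ (2 * k) = t1 at hbig
    try generalize 2 ^ (6 * k + 1) = t2 at hbig ⊢
    omega
  have hN3 : 2 ^ (6 * k + 1) ≤ N := by
    try generalize (n + 1) * (k + 1) * (3 * k + 1) = t at hbig ⊢
    try generalize n * n = t' at hbig ⊢
    generalize 4 ^ (2 * k) = t1 at hbig
    try generalize 2 ^ (6 * k + 1) = t2 at hbig ⊢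
    omega
  have hN4 : n * n < N := by
    try generalize (n + 1) * (k + 1) * (3 * k + 1) = t at hbig ⊢
    try generalize n * n = t' at hbig ⊢
    generalize 4 ^ (2 * k) = t1 at hbig
    try generalize 2 ^ (6 * k + 1) = t2 at hbig ⊢
    omega
  have hβE : helper81.BS.beta n E W PP ⊆ E := by
    intro e he
    unfold helper81.BS.beta helper81.BS.tch at he
    exact (Finset.mem_filter.1 (Finset.mem_filter.1 he).1).1
  obtain ⟨hnd, hmem⟩ := hUB1 N Q
    (fun e he => ((hUA1 n E h).2.2.2.2 e (hβE (hQ he))).trans hN4)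
    ((Nat.pow_le_pow_right (by norm_num) hQc).trans hN3)
  have hZT : ∀ Q' ∈ psub N Q, Rp T (ZT N M n k (3 * k) E Tl PP Q') (Z Q' : T.R) := by
    intro Q' hQ'
    rw [hmem] at hQ'
    rw [hZ Q']
    exact hUC3 N M n k E W PP Tl h T hyp Q' (hQ'.trans hQ)
      ((Finset.card_le_card hQ').trans hQc)
  have hcf : ∀ Q', T.cf 0 0 0 (Z Q' : T.R) = 1 := by
    intro Q'
    rw [hZ Q']
    exact hUC4 M n k (3 * k) T (ig n E h) W (helper81.BS.beta n E W PP) Q'
  have hev := (hUB6 N M n k (3 * k) T (Finset ℕ)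
    ((psub N Q).filter (fun Q' => eqb ((Q \ Q').card % 2) 0))
    (fun Q' => ZT N M n k (3 * k) E Tl PP Q') (fun Q' => (Z Q' : T.R)) hyp.two hN1 hN2
    (fun Q' hQ' => hZT Q' (List.mem_filter.1 hQ').1)).1
  have hod := (hUB6 N M n k (3 * k) T (Finset ℕ)
    ((psub N Q).filter (fun Q' => !eqb ((Q \ Q').card % 2) 0))
    (fun Q' => ZT N M n k (3 * k) E Tl PP Q') (fun Q' => (Z Q' : T.R)) hyp.two hN1 hN2
    (fun Q' hQ' => hZT Q' (List.mem_filter.1 hQ').1)).1
  obtain ⟨r', hr', hrp⟩ := hUB7 N M n k (3 * k) T _ _ hyp.two hN1 hN2 hod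
    (UC5_cf_prod T _ _ (fun Q' _ => hcf Q'))
  have hfin := hUB5 M n k (3 * k) T _ _ _ _ hyp.two hev hrp
  have e1 : ((((psub N Q).filter (fun Q' => eqb ((Q \ Q').card % 2) 0)).map
      (fun Q' => (Z Q' : T.R))).prod) =
      ((∏ Q' ∈ Q.powerset with Even (Q \ Q').card, Z Q' : T.Rˣ) : T.R) := by
    rw [Units.coe_prod, ← List.prod_toFinset _ (hnd.filter _)]
    refine Finset.prod_congr ?_ (fun _ _ => rfl)
    ext Q'
    rw [List.mem_toFinset, List.mem_filter, Finset.mem_filter, Finset.mem_powerset, hmem, UC5_par]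
  have e2 : ((((psub N Q).filter (fun Q' => !eqb ((Q \ Q').card % 2) 0)).map
      (fun Q' => (Z Q' : T.R))).prod) =
      ((∏ Q' ∈ Q.powerset with ¬ Even (Q \ Q').card, Z Q' : T.Rˣ) : T.R) := by
    rw [Units.coe_prod, ← List.prod_toFinset _ (hnd.filter _)]
    refine Finset.prod_congr ?_ (fun _ _ => rfl)
    ext Q'
    rw [List.mem_toFinset, List.mem_filter, Finset.mem_filter, Finset.mem_powerset, hmem,
      Bool.not_eq_true', ← Bool.not_eq_true, UC5_par]
  rw [e2] at hr'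
  have hr2 : ((∏ Q' ∈ Q.powerset with ¬ Even (Q \ Q').card, Z Q')⁻¹ : T.Rˣ) = r' :=
    Units.inv_eq_of_mul_eq_one_right hr'
  have hmob : BS.mob Z Q = (∏ Q' ∈ Q.powerset with Even (Q \ Q').card, Z Q') *
      (∏ Q' ∈ Q.powerset with ¬ Even (Q \ Q').card, Z Q')⁻¹ := by
    exact UC5_mob' Z Q
  rw [hmob, Units.val_mul, hr2, ← e1]
  exact hfin

end Pool.Agent.helper50.BT

end
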