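import Pool.Agent.helper11.BS.TA1
import Pool.Agent.helper11.BS.TA4
import Pool.Agent.helper11.BS.TD3
import Pool.Agent.helper11.BS.UC6
import Pool.Agent.helper16.BS.CG3
import Pool.Agent.helper16.BS.CG6
import Pool.Agent.helper16.BS.TB6
import Pool.Agent.helper16.BS.TE1
import Pool.Agent.helper16.BS.TR3
import Pool.Agent.helper16.BS.URD
import Pool.Agent.helper21.BS.A3
import Pool.Agent.helper21.BS.UA4
import Pool.Agent.helper24.BS.T3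
import Pool.Agent.helper24.BS.T5
import Pool.Agent.helper25.BS.TB5
import Pool.Agent.helper25.BS.TC3
import Pool.Agent.helper25.BS.TR4
import Pool.Agent.helper27.BS.TA5
import Pool.Agent.helper27.BS.TD2
import Pool.Agent.helper27.BS.UB1
import Pool.Agent.helper28.BS.UC8
import Pool.Agent.helper30.BS.TA2
import Pool.Agent.helper31.BS.A6
import Pool.Agent.helper32.BS.TB4
import Pool.Agent.helper32.BS.TC5
import Pool.Agent.helper32.BS.TR2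
import Pool.Agent.helper32.BS.UA3
import Pool.Agent.helper41.BS.TR1
import Pool.Agent.helper46.BS.A7
import Pool.Agent.helper46.BS.M10
import Pool.Agent.helper46.BS.UC4
import Pool.Agent.helper50.BS.CG2
import Pool.Agent.helper50.BS.CM
import Pool.Agent.helper50.BS.CP1
import Pool.Agent.helper50.BS.CX4
import Pool.Agent.helper50.BS.UA1
import Pool.Agent.helper50.BS.UC5
import Pool.Agent.helper52.BS.M7
import Pool.Agent.helper52.BS.TC2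
import Pool.Agent.helper52.BS.UA2
import Pool.Agent.helper60.BS.A1
import Pool.Agent.helper60.BS.A4
import Pool.Agent.helper60.BS.A5
import Pool.Agent.helper60.BS.M11
import Pool.Agent.helper60.BS.T1
import Pool.Agent.helper60.BS.T2
import Pool.Agent.helper60.BS.TE2
import Pool.Agent.helper62.BS.UB5
import Pool.Agent.helper62.BS.UB7
import Pool.Agent.helper63.BS.CX2
import Pool.Agent.helper63.BS.CX3
import Pool.Agent.helper64.BS.A2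
import Pool.Agent.helper64.BS.A8
import Pool.Agent.helper64.BS.M12
import Pool.Agent.helper64.BS.M3a
import Pool.Agent.helper64.BS.M9
import Pool.Agent.helper64.BS.TA3
import Pool.Agent.helper64.BS.UC9
import Pool.Agent.helper66.BS.UC7
import Pool.Agent.helper69.BS.UC10
import Pool.Agent.helper70.BS.UDEC
import Pool.Agent.helper71.BS.UND
import Pool.Agent.helper72.BS.UB2
import Pool.Agent.helper72.BS.UB3
import Pool.Agent.helper72.BS.UB4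
import Pool.Agent.helper74.BS.TD4
import Pool.Agent.helper77.BS.UB8
import Pool.Agent.helper78.BS.CG5
import Pool.Agent.helper78.BS.CG8
import Pool.Agent.helper78.BS.CX5
import Pool.Agent.helper78.BS.UC1
import Pool.Agent.helper87.BS.TB1
import Pool.Agent.helper87.BS.TD1
import Pool.Agent.helper89.BS.M1
import Pool.Agent.helper89.BS.M2
import Pool.Agent.helper89.BS.M3b
import Pool.Agent.helper89.BS.M4
import Pool.Agent.helper89.BS.M5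
import Pool.Agent.helper89.BS.M6
import Pool.Agent.helper89.BS.M8
import Pool.Agent.helper91.BS.UC2
import Pool.Agent.helper92.BS.CG1
import Pool.Agent.helper92.BS.CX1
import Pool.Agent.helper97.BS.UC3
import Pool.Agent.helper98.BS.TB2
import Pool.Agent.helper99.BS.T4
import Pool.Agent.helper99.BS.TB3
import Pool.Agent.helper99.BS.TC1
import Pool.Agent.helper99.BS.TC4
import Pool.Agent.helper99.BS.UB6

/-!
# Project bs: assembly of the modules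
-/

set_option autoImplicit false

namespace Pool.Agent.BSFin

theorem Fin_CM1 : Pool.Agent.BS.CM1_stmt := Pool.Agent.BS.CM1

theorem Fin_CM2 : Pool.Agent.BS.CM2_stmt := Pool.Agent.BS.CM2

theorem Fin_CX1 : Pool.Agent.BS.CX1_stmt := Pool.Agent.BS.CX1

theorem Fin_CX2 : Pool.Agent.BS.CX2_stmt := Pool.Agent.BS.CX2

theorem Fin_CX3 : Pool.Agent.BS.CX3_stmt := Pool.Agent.BS.CX3 Fin_CX1

theorem Fin_CP1 : Pool.Agent.BS.CP1_stmt := Pool.Agent.BS.CP1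

theorem Fin_CX4 : Pool.Agent.BS.CX4_stmt := Pool.Agent.BS.CX4 Fin_CP1

theorem Fin_CX5 : Pool.Agent.BS.CX5_stmt := Pool.Agent.BS.CX5 Fin_CX3 Fin_CX4

theorem Fin_CX6 : Pool.Agent.BS.CX6_stmt := Pool.Agent.BS.CX6 Fin_CM1 Fin_CM2

theorem Fin_CG1 : Pool.Agent.BS.CG1_stmt := Pool.Agent.BS.CG1

theorem Fin_CG2 : Pool.Agent.BS.CG2_stmt := Pool.Agent.BS.CG2

theorem Fin_CG3 : Pool.Agent.BS.CG3_stmt := Pool.Agent.BS.CG3

theorem Fin_CG4 : Pool.Agent.BS.CG4_stmt := Pool.Agent.BS.CG4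

theorem Fin_CG5 : Pool.Agent.BS.CG5_stmt := Pool.Agent.BS.CG5 Fin_CG2 Fin_CG3 Fin_CG4

theorem Fin_CG6 : Pool.Agent.BS.CG6_stmt := Pool.Agent.BS.CG6 Fin_CX2 Fin_CX5 Fin_CX6 Fin_CG1 Fin_CG5

theorem Fin_CG7 : Pool.Agent.BS.CG7_stmt := Pool.Agent.BS.CG7 Fin_CM1

theorem Fin_CG8 : Pool.Agent.BS.CG8_stmt := Pool.Agent.BS.CG8

theorem Fin_TA1 : Pool.Agent.BS.TA1_stmt := Pool.Agent.BS.TA1

theorem Fin_TA2 : Pool.Agent.BS.TA2_stmt := Pool.Agent.BS.TA2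

theorem Fin_TA3 : Pool.Agent.BS.TA3_stmt := Pool.Agent.BS.TA3 Fin_TA1 Fin_TA2

theorem Fin_TA4 : Pool.Agent.BS.TA4_stmt := Pool.Agent.BS.TA4

theorem Fin_TA5 : Pool.Agent.BS.TA5_stmt := Pool.Agent.BS.TA5

theorem Fin_TB1 : Pool.Agent.BS.TB1_stmt := Pool.Agent.BS.TB1

theorem Fin_TB2 : Pool.Agent.BS.TB2_stmt := Pool.Agent.BS.TB2

theorem Fin_TB3 : Pool.Agent.BS.TB3_stmt := Pool.Agent.BS.TB3 Fin_TB1

theorem Fin_TB4 : Pool.Agent.BS.TB4_stmt := Pool.Agent.BS.TB4 Fin_TB3 Fin_TB2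

theorem Fin_TB5 : Pool.Agent.BS.TB5_stmt := Pool.Agent.BS.TB5 Fin_TB4

theorem Fin_TB6 : Pool.Agent.BS.TB6_stmt := Pool.Agent.BS.TB6

theorem Fin_TC1 : Pool.Agent.BS.TC1_stmt := Pool.Agent.BS.TC1 Fin_TB1

theorem Fin_TC2 : Pool.Agent.BS.TC2_stmt := Pool.Agent.BS.TC2

theorem Fin_TC3 : Pool.Agent.BS.TC3_stmt := Pool.Agent.BS.TC3 Fin_TC1 Fin_TC2

theorem Fin_TC4 : Pool.Agent.BS.TC4_stmt := Pool.Agent.BS.TC4

theorem Fin_TC5 : Pool.Agent.BS.TC5_stmt := Pool.Agent.BS.TC5 Fin_TC1 Fin_TC4 Fin_TB1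

theorem Fin_TD1 : Pool.Agent.BS.TD1_stmt := Pool.Agent.BS.TD1 Fin_TA1 Fin_TA3 Fin_TA4 Fin_TA5 Fin_CG6

theorem Fin_TD2 : Pool.Agent.BS.TD2_stmt := Pool.Agent.BS.TD2 Fin_TA3 Fin_TA4

theorem Fin_TD3 : Pool.Agent.BS.TD3_stmt := Pool.Agent.BS.TD3

theorem Fin_TD4 : Pool.Agent.BS.TD4_stmt := Pool.Agent.BS.TD4 Fin_TD1 Fin_CG7

theorem Fin_TR1 : Pool.Agent.BS.TR1_stmt := Pool.Agent.BS.TR1

theorem Fin_TR2 : Pool.Agent.BS.TR2_stmt := Pool.Agent.BS.TR2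

theorem Fin_TR3 : Pool.Agent.BS.TR3_stmt := Pool.Agent.BS.TR3

theorem Fin_TR4 : Pool.Agent.BS.TR4_stmt := Pool.Agent.BS.TR4

theorem Fin_TE1 : Pool.Agent.BS.TE1_stmt := Pool.Agent.BS.TE1

theorem Fin_TE2 : Pool.Agent.BS.TE2_stmt := Pool.Agent.BS.TE2

theorem Fin_M1 : Pool.Agent.helper81.BS.M1_stmt := Pool.Agent.helper81.BS.M1

theorem Fin_M2 : Pool.Agent.helper81.BS.M2_stmt := Pool.Agent.helper81.BS.M2

theorem Fin_M3a : Pool.Agent.helper81.BS.M3a_stmt := Pool.Agent.helper81.BS.M3a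

theorem Fin_M3b : Pool.Agent.helper81.BS.M3b_stmt := Pool.Agent.helper81.BS.M3b

theorem Fin_M4 : Pool.Agent.helper81.BS.M4_stmt := Pool.Agent.helper81.BS.M4

theorem Fin_M5 : Pool.Agent.helper81.BS.M5_stmt := Pool.Agent.helper81.BS.M5 Fin_M1 Fin_M3a Fin_M3b Fin_M4

theorem Fin_M6 : Pool.Agent.helper81.BS.M6_stmt := Pool.Agent.helper81.BS.M6 Fin_M3a Fin_M3b

theorem Fin_M7 : Pool.Agent.helper81.BS.M7_stmt := Pool.Agent.helper81.BS.M7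

theorem Fin_M8 : Pool.Agent.helper81.BS.M8_stmt := Pool.Agent.helper81.BS.M8 Fin_M1 Fin_M4 Fin_M6

theorem Fin_M9 : Pool.Agent.helper81.BS.M9_stmt := Pool.Agent.helper81.BS.M9 Fin_M4 Fin_M5 Fin_M7 Fin_M8

theorem Fin_M10 : Pool.Agent.helper81.BS.M10_stmt := Pool.Agent.helper81.BS.M10

theorem Fin_M11 : Pool.Agent.helper81.BS.M11_stmt := Pool.Agent.helper81.BS.M11 Fin_M4 Fin_M5 Fin_M7 Fin_M8 Fin_M10

theorem Fin_M12 : Pool.Agent.helper81.BS.M12_stmt := Pool.Agent.helper81.BS.M12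

theorem Fin_A1 : Pool.Agent.helper81.BS.A1_stmt := Pool.Agent.helper81.BS.A1

theorem Fin_A2 : Pool.Agent.helper81.BS.A2_stmt := Pool.Agent.helper81.BS.A2

theorem Fin_A3 : Pool.Agent.helper81.BS.A3_stmt := Pool.Agent.helper81.BS.A3

theorem Fin_A4 : Pool.Agent.helper81.BS.A4_stmt := Pool.Agent.helper81.BS.A4 Fin_A2 Fin_A3

theorem Fin_A5 : Pool.Agent.helper81.BS.A5_stmt := Pool.Agent.helper81.BS.A5

theorem Fin_A6 : Pool.Agent.helper81.BS.A6_stmt := Pool.Agent.helper81.BS.A6 Fin_A1 Fin_A2 Fin_A4 Fin_A5 Fin_M3b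

theorem Fin_A7 : Pool.Agent.helper81.BS.A7_stmt := Pool.Agent.helper81.BS.A7 Fin_M4 Fin_M5 Fin_M7 Fin_M9 Fin_M11 Fin_A6

theorem Fin_A8 : Pool.Agent.helper81.BS.A8_stmt := Pool.Agent.helper81.BS.A8 Fin_M12 Fin_A7

theorem Fin_T1 : Pool.Agent.helper81.BS.T1_stmt := Pool.Agent.helper81.BS.T1 Fin_M2

theorem Fin_T2 : Pool.Agent.helper81.BS.T2_stmt := Pool.Agent.helper81.BS.T2 Fin_T1

theorem Fin_T3 : Pool.Agent.helper81.BS.T3_stmt := Pool.Agent.helper81.BS.T3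

theorem Fin_T4 : Pool.Agent.helper81.BS.T4_stmt := Pool.Agent.helper81.BS.T4 Fin_M3a Fin_M3b Fin_A8

theorem Fin_T5 : Pool.Agent.helper81.BS.T5_stmt := Pool.Agent.helper81.BS.T5 Fin_T2 Fin_T3 Fin_T4

theorem Fin_UA1 : Pool.Agent.helper50.BT.UA1_stmt := Pool.Agent.helper50.BT.UA1

theorem Fin_UA2 : Pool.Agent.helper50.BT.UA2_stmt := Pool.Agent.helper50.BT.UA2

theorem Fin_UA3 : Pool.Agent.helper50.BT.UA3_stmt := Pool.Agent.helper50.BT.UA3 Fin_UA1 Fin_UA2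

theorem Fin_UA4 : Pool.Agent.helper50.BT.UA4_stmt := Pool.Agent.helper50.BT.UA4

theorem Fin_UB1 : Pool.Agent.helper50.BT.UB1_stmt := Pool.Agent.helper50.BT.UB1

theorem Fin_UB2 : Pool.Agent.helper50.BT.UB2_stmt := Pool.Agent.helper50.BT.UB2

theorem Fin_UB3 : Pool.Agent.helper50.BT.UB3_stmt := Pool.Agent.helper50.BT.UB3 Fin_UB2

theorem Fin_UB4 : Pool.Agent.helper50.BT.UB4_stmt := Pool.Agent.helper50.BT.UB4

theorem Fin_UB5 : Pool.Agent.helper50.BT.UB5_stmt := Pool.Agent.helper50.BT.UB5 Fin_UB2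

theorem Fin_UB6 : Pool.Agent.helper50.BT.UB6_stmt := Pool.Agent.helper50.BT.UB6 Fin_UB3 Fin_UB4 Fin_UB5

theorem Fin_UB7 : Pool.Agent.helper50.BT.UB7_stmt := Pool.Agent.helper50.BT.UB7 Fin_UB3 Fin_UB4 Fin_UB5 Fin_TR2

theorem Fin_UB8 : Pool.Agent.helper50.BT.UB8_stmt := Pool.Agent.helper50.BT.UB8

theorem Fin_UC1 : Pool.Agent.helper50.BT.UC1_stmt := Pool.Agent.helper50.BT.UC1 Fin_UA1 Fin_UB3 Fin_UB4 Fin_TB6

theorem Fin_UC2 : Pool.Agent.helper50.BT.UC2_stmt := Pool.Agent.helper50.BT.UC2 Fin_UC1 Fin_UB6 Fin_UA1 Fin_UA2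

theorem Fin_UC3 : Pool.Agent.helper50.BT.UC3_stmt := Pool.Agent.helper50.BT.UC3 Fin_UC2 Fin_UB1 Fin_UB3 Fin_UB5 Fin_UB6 Fin_TB5 Fin_UA1 Fin_UA2

theorem Fin_UC4 : Pool.Agent.helper50.BT.UC4_stmt := Pool.Agent.helper50.BT.UC4

theorem Fin_UC5 : Pool.Agent.helper50.BT.UC5_stmt := Pool.Agent.helper50.BT.UC5 Fin_UA1 Fin_UB1 Fin_UB5 Fin_UB6 Fin_UB7 Fin_UC3 Fin_UC4

theorem Fin_UC6 : Pool.Agent.helper50.BT.UC6_stmt := Pool.Agent.helper50.BT.UC6 Fin_UB1 Fin_UA1 Fin_UA2 Fin_UA3 Fin_UA4 Fin_A8 Fin_TC3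

theorem Fin_UC7 : Pool.Agent.helper50.BT.UC7_stmt := Pool.Agent.helper50.BT.UC7 Fin_UA1 Fin_UA2 Fin_UB5 Fin_UB6 Fin_UC3 Fin_UC5 Fin_UC6 Fin_TD4 Fin_TB1

theorem Fin_UC8 : Pool.Agent.helper50.BT.UC8_stmt := Pool.Agent.helper50.BT.UC8 Fin_UA1 Fin_UA2 Fin_UB1 Fin_UB3 Fin_UB4 Fin_UB6 Fin_UC7 Fin_TB1 Fin_TD2 Fin_TD3

theorem Fin_UC9 : Pool.Agent.helper50.BT.UC9_stmt := Pool.Agent.helper50.BT.UC9 Fin_TC5 Fin_TR3 Fin_UA1 Fin_UA2 Fin_UA3 Fin_UC8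

theorem Fin_UC10 : Pool.Agent.helper50.BT.UC10_stmt := Pool.Agent.helper50.BT.UC10 Fin_UB2 Fin_TR3 Fin_UC9

theorem Fin_UND : Pool.Agent.helper50.BT.UND_stmt := Pool.Agent.helper50.BT.UND Fin_T5 Fin_UA1 Fin_UB1 Fin_UC10

theorem Fin_URD : Pool.Agent.helper50.BT.URD_stmt := Pool.Agent.helper50.BT.URD Fin_TR3

theorem Fin_UDEC : Pool.Agent.helper50.BT.UDEC_stmt := Pool.Agent.helper50.BT.UDEC Fin_UA1 Fin_TE1 Fin_TE2 Fin_TR4

end Pool.Agent.BSFin
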