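import Pool.Agent.helper81.BS.PTG

/-!
# Edge bisection: the table functions (project bs:)

Elements of the truncated ring `(Z/M)[x,y,u]/(x^{n+1}, y^{k+1}, u^{l+1})`, `l = 3k`, are lists of numbers
`< M` of length `(n+1)(k+1)(l+1)`; the coefficient of `x^a y^c u^j` is at place `(a(k+1)+c)(l+1)+j`.
-/

set_option autoImplicit false
set_option linter.dupNamespace false
set_option linter.unusedVariables false
set_option linter.unusedSectionVars false

namespace Pool.Agent.helper50.BT

open Pool.Agent.helper81.PL Pool.Agent.helper81.BS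

/-- all subsets -/
def psub (N : ℕ) (S : Finset ℕ) : List (Finset ℕ) :=
  cfold N (fun L e => L ++ L.map (fun T => insert e T)) [∅] S.sort

/-- coefficient of `x^a y^c u^j` -/
def cfT (k l : ℕ) (T : List ℕ) (a c j : ℕ) : ℕ := T.getD ((a * (k + 1) + c) * (l + 1) + j) 0

/-- monomials -/
def monT (M n k l a0 c0 j0 : ℕ) : List ℕ :=
  (List.range (n + 1)).flatMap (fun a => (List.range (k + 1)).flatMap (fun c =>
    (List.range (l + 1)).map (fun j =>
      bif eqb a a0 && eqb c c0 && eqb j j0 then 1 % M else 0)))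

/-- zero -/
def zeroT (n k l : ℕ) : List ℕ := List.replicate ((n + 1) * (k + 1) * (l + 1)) 0

/-- one -/
def oneT (M n k l : ℕ) : List ℕ := monT M n k l 0 0 0

/-- sum -/
def addT (M : ℕ) (S T : List ℕ) : List ℕ := List.zipWith (fun p q => (p + q) % M) S T

/-- difference -/
def subT (M : ℕ) (S T : List ℕ) : List ℕ := List.zipWith (fun p q => (p + (M - q)) % M) S T

/-- product -/
def mulT (M n k l : ℕ) (S T : List ℕ) : List ℕ :=
  (List.range (n + 1)).flatMap (fun a => (List.range (k + 1)).flatMap (fun c =>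
    (List.range (l + 1)).map (fun j =>
      ((List.range (a + 1)).map (fun a1 => ((List.range (c + 1)).map (fun c1 =>
        ((List.range (j + 1)).map (fun j1 =>
          cfT k l S a1 c1 j1 * cfT k l T (a - a1) (c - c1) (j - j1))).sum)).sum)).sum % M)))

/-- inverse of an element with constant coefficient one -/
def invT (N M n k l : ℕ) (T : List ℕ) : List ℕ :=
  citer N (n + k + l + 1)
    (fun A => addT M (oneT M n k l) (mulT M n k l (subT M (oneT M n k l) T) A)) (zeroT n k l)

/-- product of a list -/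
def prodT (N M n k l : ℕ) (L : List (List ℕ)) : List ℕ :=
  cfold N (fun A B => mulT M n k l A B) (oneT M n k l) L

/-- sum of a list -/
def sumT (N M n k l : ℕ) (L : List (List ℕ)) : List ℕ :=
  cfold N (fun A B => addT M A B) (zeroT n k l) L

/-- The element `F_C(P)`: by formula for a singleton, from the tables `Tl` otherwise. -/
def elemF (M n k l : ℕ) (E : Finset ℕ) (Tl : List (Finset ℕ × List (Finset ℕ × List ℕ)))
    (C P : Finset ℕ) : List ℕ :=
  bif leb C.card 1 then
    addT M (monT M n k l 0 P.card 0) (monT M n k l 1 (dd n E C - P.card) 0)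
  else ((Tl.find? (fun q => eqb q.1 C)).bind
    (fun q => (q.2.find? (fun r => eqb r.1 P)).map (fun r => r.2))).getD []

/-- `w(S)` -/
def wT (N M n k l : ℕ) (E : Finset ℕ) (Tl : List (Finset ℕ × List (Finset ℕ × List ℕ)))
    (PP : List (Finset ℕ)) (S : Finset ℕ) : List ℕ :=
  prodT N M n k l (PP.map (fun C => elemF M n k l E Tl C (S ∩ dl n E C)))

/-- `Z_U` -/
def ZT (N M n k l : ℕ) (E : Finset ℕ) (Tl : List (Finset ℕ × List (Finset ℕ × List ℕ)))
    (PP : List (Finset ℕ)) (U : Finset ℕ) : List ℕ :=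
  sumT N M n k l ((psub N U).map (fun S =>
    mulT M n k l (monT M n k l 0 0 S.card) (wT N M n k l E Tl PP S)))

/-- the Moebius factor `m_Q` -/
def mT (N M n k l : ℕ) (E : Finset ℕ) (Tl : List (Finset ℕ × List (Finset ℕ × List ℕ)))
    (PP : List (Finset ℕ)) (Q : Finset ℕ) : List ℕ :=
  mulT M n k l
    (prodT N M n k l (((psub N Q).filter (fun Q' => eqb ((Q \ Q').card % 2) 0)).map
      (fun Q' => ZT N M n k l E Tl PP Q')))
    (invT N M n k l (prodT N M n k l (((psub N Q).filter (fun Q' => !eqb ((Q \ Q').card % 2) 0)).map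
      (fun Q' => ZT N M n k l E Tl PP Q'))))

/-- the list of all possible traces -/
def QQ (N n : ℕ) (E W : Finset ℕ) (k : ℕ) (PP : List (Finset ℕ)) : List (Finset ℕ) :=
  bif leb (beta n E W PP).card (6 * k) then
    (psub N (beta n E W PP)).filter (fun Q => !eqb Q ∅)
  else ((beta n E W PP).sort.map (fun e => {e}) ++
    (allImp N n E W (2 * k)).flatMap (fun R =>
      (psub N (tch n (beta n E W PP) R)).filter (fun Q => !eqb Q ∅))).dedup

/-- `H(P)` -/
def HT (N M n k : ℕ) (E : Finset ℕ) (Tl : List (Finset ℕ × List (Finset ℕ × List ℕ)))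
    (W : Finset ℕ) (PP : List (Finset ℕ)) (P : Finset ℕ) : List ℕ :=
  mulT M n k (3 * k) (ZT N M n k (3 * k) E Tl PP ∅)
    (prodT N M n k (3 * k) (((QQ N n E W k PP).filter (fun Q => fsub (Q ∩ dl n E W) P)).map
      (fun Q => mT N M n k (3 * k) E Tl PP Q)))

/-- `G(P)` -/
def GT (N M n k : ℕ) (E : Finset ℕ) (Tl : List (Finset ℕ × List (Finset ℕ × List ℕ)))
    (W : Finset ℕ) (PP : List (Finset ℕ)) (P : Finset ℕ) : List ℕ :=
  sumT N M n k (3 * k) ((psub N P).map (fun P' =>
    bif eqb ((P \ P').card % 2) 0 then HT N M n k E Tl W PP P'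
    else subT M (zeroT n k (3 * k)) (HT N M n k E Tl W PP P')))

/-- one entry of the table of `W` -/
def resE (N M n k : ℕ) (E : Finset ℕ) (Tl : List (Finset ℕ × List (Finset ℕ × List ℕ)))
    (W : Finset ℕ) (PP : List (Finset ℕ)) (P : Finset ℕ) (a c : ℕ) : ℕ :=
  (((List.range (3 * k + 1)).map (fun j =>
      cfT k (3 * k) (GT N M n k E Tl W PP P) a c j)).sum +
    (((List.range (3 * k + 1)).filter (fun j => leb (3 * k + j + 1) (beta n E W PP).card)).map
      (fun j => cfT k (3 * k) (GT N M n k E Tl W PP (dl n E W \ P)) (W.card - a) c j)).sum) % M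

/-- `F_W(P)` as ring element -/
def resT (N M n k : ℕ) (E : Finset ℕ) (Tl : List (Finset ℕ × List (Finset ℕ × List ℕ)))
    (W : Finset ℕ) (PP : List (Finset ℕ)) (P : Finset ℕ) : List ℕ :=
  (List.range (n + 1)).flatMap (fun a => (List.range (k + 1)).flatMap (fun c =>
    (List.range (3 * k + 1)).map (fun j =>
      bif eqb j 0 && leb a W.card then resE N M n k E Tl W PP P a c else 0)))

/-- The table of `W`, computed from the tables `Tl` of the parts (with at least two elements) of the
tight partition of `W`. -/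
def nd (N M n k : ℕ) (E : Finset ℕ) (Tl : List (Finset ℕ × List (Finset ℕ × List ℕ)))
    (W : Finset ℕ) : List (Finset ℕ × List ℕ) :=
  (psub N (dl n E W)).map (fun P => (P, resT N M n k E Tl W (tightP N n E W k) P))

/-- reading the answer modulo `M` from the table of the whole vertex set -/
def read (n k : ℕ) (T : List (Finset ℕ × List ℕ)) : Bool :=
  (List.range (k + 1)).any (fun c =>
    !eqb (cfT k (3 * k) (((T.find? (fun r => eqb r.1 ∅)).map (fun r => r.2)).getD []) (n / 2) c 0) 0)

end Pool.Agent.helper50.BT
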