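import Pool.Agent.helper73.BS.Spec2

/-!
# Project bs (MP_a2a22c_al), row N2P: dimension 2
-/

set_option autoImplicit false

namespace Pool.Agent.BS

open Matrix Module Pool.Agent.UG Pool.Agent.H48SL Pool.Agent.SHL

/-- a rational 2 x 2 matrix of determinant 1 with a nonzero fixed vector is unipotent -/
theorem N2P_unip (A : MQ 2) (hd : A.det = 1) (u : VQ 2) (hu : u ≠ 0) (h : A *ᵥ u = u) :
    IsNilpotent (A - 1) := by
  have e0' := congrFun h 0
  have e1' := congrFun h 1
  simp only [mulVec, dotProduct, Fin.sum_univ_two] at e0' e1'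
  rw [Matrix.det_fin_two] at hd
  have h1 : (A 0 0 - 1) * (A 1 1 - 1) - A 0 1 * A 1 0 = 0 := by
    by_contra hne
    apply hu
    have hu0 : ((A 0 0 - 1) * (A 1 1 - 1) - A 0 1 * A 1 0) * u 0 = 0 := by
      linear_combination (A 1 1 - 1) * e0' - A 0 1 * e1'
    have hu1 : ((A 0 0 - 1) * (A 1 1 - 1) - A 0 1 * A 1 0) * u 1 = 0 := by
      linear_combination (A 0 0 - 1) * e1' - A 1 0 * e0'
    ext i
    fin_cases i
    · exact (mul_eq_zero.1 hu0).resolve_left hne
    · exact (mul_eq_zero.1 hu1).resolve_left hne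
  have htr : A 0 0 + A 1 1 = 2 := by linarith
  refine ⟨2, ?_⟩
  rw [pow_two]
  ext i j
  rw [Matrix.mul_apply, Fin.sum_univ_two]
  have h11 : A 1 1 = 2 - A 0 0 := by linarith
  rw [h11] at h1
  fin_cases i <;> fin_cases j <;> simp [Matrix.sub_apply, h11] <;>
    first | linear_combination (-1 : ℚ) * h1 | ring

theorem N2P (hEXJ : UG.EXJ_stmt) : N2P_stmt := by
  classical
  intro P 𝔲 k W hFS hP
  -- the first step of the flag
  have hex : ∃ j, W j ≠ ⊥ := by
    refine ⟨k, ?_⟩
    rw [hFS.top]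
    exact top_ne_bot
  have hj0 : Nat.find hex ≠ 0 := by
    intro h0
    have h1 := Nat.find_spec hex
    rw [h0] at h1
    exact h1 hFS.bot
  obtain ⟨i, hi⟩ := Nat.exists_eq_succ_of_ne_zero hj0
  have hWi : W i = ⊥ := by
    by_contra h
    have h1 := Nat.find_min' hex h
    omega
  have hWi1 : W (i + 1) ≠ ⊥ := by
    have h1 := Nat.find_spec hex
    rwa [hi] at h1
  obtain ⟨v, hv, hv0⟩ := (Submodule.ne_bot_iff _).1 hWi1
  have hkill : ∀ X ∈ 𝔲, X *ᵥ v = 0 := by
    intro X hX
    have h1 := hFS.down X hX i v hv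
    rw [hWi] at h1
    exact (Submodule.mem_bot ℚ).1 h1
  -- the second vector
  obtain ⟨g, hg, hgo, hgu⟩ := hP ![-(v 1), v 0]
  have hu0 : (![-(v 1), v 0] : VQ 2) ≠ 0 := by
    intro h
    apply hv0
    have h0 := congrFun h 0
    have h1 := congrFun h 1
    simp at h0 h1
    ext l
    fin_cases l
    · exact h1
    · exact h0
  have hdet : (qg g).det = 1 := by
    unfold qg
    rw [← RingHom.map_det, g.2, map_one]
  have hnil := N2P_unip (qg g) hdet _ hu0 hgu
  obtain ⟨X, hX, hgX⟩ := hFS.uni g hg hnil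
  have hXnil : IsNilpotent X :=
    fil_one_nil hFS.bot hFS.top ((mem_fil_one hFS.bot).2 (hFS.down X hX))
  have hXu : X *ᵥ ![-(v 1), v 0] = 0 := by
    apply (hEXJ 2 X hXnil).2.1
    rw [← hgX]
    exact hgu
  have hXv := hkill X hX
  have hns : v 0 * v 0 + v 1 * v 1 ≠ 0 := by
    intro h
    apply hv0
    have h0 : v 0 = 0 := by nlinarith [mul_self_nonneg (v 0), mul_self_nonneg (v 1)]
    have h1 : v 1 = 0 := by nlinarith [mul_self_nonneg (v 0), mul_self_nonneg (v 1)]
    ext l
    fin_cases l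
    · exact h0
    · exact h1
  have hX0 : X = 0 := by
    ext a b
    have e1 := congrFun hXu a
    have e2 := congrFun hXv a
    simp only [mulVec, dotProduct, Fin.sum_univ_two] at e1 e2
    simp at e1 e2
    have ha0 : (v 0 * v 0 + v 1 * v 1) * X a 0 = 0 := by
      linear_combination (v 0) * e2 - (v 1) * e1
    have ha1 : (v 0 * v 0 + v 1 * v 1) * X a 1 = 0 := by
      linear_combination (v 1) * e2 + (v 0) * e1
    fin_cases b
    · exact (mul_eq_zero.1 ha0).resolve_left hns
    · exact (mul_eq_zero.1 ha1).resolve_left hns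
  have hg1 : qg g = 1 := by
    rw [hgX, hX0, IsNilpotent.exp_zero]
  have hg1' : g = 1 := by
    apply qg_inj
    rw [hg1, qg_one]
  exact hgo 1 Nat.one_pos (by rw [hg1', one_pow])

end Pool.Agent.BS
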