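import Pool.Agent.helper50.BS.DefsU

/-!
# Edge bisection: the table functions are polynomial
-/

set_option autoImplicit false
set_option linter.dupNamespace false
set_option linter.unusedVariables false
set_option linter.unusedSectionVars false

namespace Pool.Agent.helper50.BT

open Pool.Agent.helper81.PL Pool.Agent.helper81.BS

variable [S1]

@[fun_prop] theorem pt_psub : PT (fun p : ℕ × Finset ℕ => psub p.1 p.2) := by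
  unfold psub; fun_prop

@[fun_prop] theorem pt_cfT : PT (fun p : ℕ × ℕ × List ℕ × ℕ × ℕ × ℕ =>
    cfT p.1 p.2.1 p.2.2.1 p.2.2.2.1 p.2.2.2.2.1 p.2.2.2.2.2) := by
  unfold cfT; fun_prop

@[fun_prop] theorem pt_monT : PT (fun p : ℕ × ℕ × ℕ × ℕ × ℕ × ℕ × ℕ =>
    monT p.1 p.2.1 p.2.2.1 p.2.2.2.1 p.2.2.2.2.1 p.2.2.2.2.2.1 p.2.2.2.2.2.2) := by
  unfold monT; fun_prop

@[fun_prop] theorem pt_zeroT : PT (fun p : ℕ × ℕ × ℕ => zeroT p.1 p.2.1 p.2.2) := by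
  unfold zeroT; fun_prop

@[fun_prop] theorem pt_oneT : PT (fun p : ℕ × ℕ × ℕ × ℕ => oneT p.1 p.2.1 p.2.2.1 p.2.2.2) := by
  unfold oneT; fun_prop

@[fun_prop] theorem pt_addT : PT (fun p : ℕ × List ℕ × List ℕ => addT p.1 p.2.1 p.2.2) := by
  unfold addT; fun_prop

@[fun_prop] theorem pt_subT : PT (fun p : ℕ × List ℕ × List ℕ => subT p.1 p.2.1 p.2.2) := by
  unfold subT; fun_prop

@[fun_prop] theorem pt_mulT : PT (fun p : ℕ × ℕ × ℕ × ℕ × List ℕ × List ℕ =>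
    mulT p.1 p.2.1 p.2.2.1 p.2.2.2.1 p.2.2.2.2.1 p.2.2.2.2.2) := by
  unfold mulT; fun_prop

@[fun_prop] theorem pt_invT : PT (fun p : ℕ × ℕ × ℕ × ℕ × ℕ × List ℕ =>
    invT p.1 p.2.1 p.2.2.1 p.2.2.2.1 p.2.2.2.2.1 p.2.2.2.2.2) := by
  unfold invT; fun_prop

@[fun_prop] theorem pt_prodT : PT (fun p : ℕ × ℕ × ℕ × ℕ × ℕ × List (List ℕ) =>
    prodT p.1 p.2.1 p.2.2.1 p.2.2.2.1 p.2.2.2.2.1 p.2.2.2.2.2) := by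
  unfold prodT; fun_prop

@[fun_prop] theorem pt_sumT : PT (fun p : ℕ × ℕ × ℕ × ℕ × ℕ × List (List ℕ) =>
    sumT p.1 p.2.1 p.2.2.1 p.2.2.2.1 p.2.2.2.2.1 p.2.2.2.2.2) := by
  unfold sumT; fun_prop

@[fun_prop] theorem pt_elemF : PT (fun p : ℕ × ℕ × ℕ × ℕ × Finset ℕ ×
    List (Finset ℕ × List (Finset ℕ × List ℕ)) × Finset ℕ × Finset ℕ =>
    elemF p.1 p.2.1 p.2.2.1 p.2.2.2.1 p.2.2.2.2.1 p.2.2.2.2.2.1 p.2.2.2.2.2.2.1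
      p.2.2.2.2.2.2.2) := by
  unfold elemF; fun_prop

@[fun_prop] theorem pt_wT : PT (fun p : ℕ × ℕ × ℕ × ℕ × ℕ × Finset ℕ ×
    List (Finset ℕ × List (Finset ℕ × List ℕ)) × List (Finset ℕ) × Finset ℕ =>
    wT p.1 p.2.1 p.2.2.1 p.2.2.2.1 p.2.2.2.2.1 p.2.2.2.2.2.1 p.2.2.2.2.2.2.1
      p.2.2.2.2.2.2.2.1 p.2.2.2.2.2.2.2.2) := by
  unfold wT; fun_prop

@[fun_prop] theorem pt_ZT : PT (fun p : ℕ × ℕ × ℕ × ℕ × ℕ × Finset ℕ ×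
    List (Finset ℕ × List (Finset ℕ × List ℕ)) × List (Finset ℕ) × Finset ℕ =>
    ZT p.1 p.2.1 p.2.2.1 p.2.2.2.1 p.2.2.2.2.1 p.2.2.2.2.2.1 p.2.2.2.2.2.2.1
      p.2.2.2.2.2.2.2.1 p.2.2.2.2.2.2.2.2) := by
  unfold ZT; fun_prop

@[fun_prop] theorem pt_mT : PT (fun p : ℕ × ℕ × ℕ × ℕ × ℕ × Finset ℕ ×
    List (Finset ℕ × List (Finset ℕ × List ℕ)) × List (Finset ℕ) × Finset ℕ =>
    mT p.1 p.2.1 p.2.2.1 p.2.2.2.1 p.2.2.2.2.1 p.2.2.2.2.2.1 p.2.2.2.2.2.2.1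
      p.2.2.2.2.2.2.2.1 p.2.2.2.2.2.2.2.2) := by
  unfold mT; fun_prop

@[fun_prop] theorem pt_QQ : PT (fun p : ℕ × ℕ × Finset ℕ × Finset ℕ × ℕ × List (Finset ℕ) =>
    QQ p.1 p.2.1 p.2.2.1 p.2.2.2.1 p.2.2.2.2.1 p.2.2.2.2.2) := by
  unfold QQ; fun_prop

@[fun_prop] theorem pt_HT : PT (fun p : ℕ × ℕ × ℕ × ℕ × Finset ℕ ×
    List (Finset ℕ × List (Finset ℕ × List ℕ)) × Finset ℕ × List (Finset ℕ) × Finset ℕ =>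
    HT p.1 p.2.1 p.2.2.1 p.2.2.2.1 p.2.2.2.2.1 p.2.2.2.2.2.1 p.2.2.2.2.2.2.1
      p.2.2.2.2.2.2.2.1 p.2.2.2.2.2.2.2.2) := by
  unfold HT; fun_prop

@[fun_prop] theorem pt_GT : PT (fun p : ℕ × ℕ × ℕ × ℕ × Finset ℕ ×
    List (Finset ℕ × List (Finset ℕ × List ℕ)) × Finset ℕ × List (Finset ℕ) × Finset ℕ =>
    GT p.1 p.2.1 p.2.2.1 p.2.2.2.1 p.2.2.2.2.1 p.2.2.2.2.2.1 p.2.2.2.2.2.2.1
      p.2.2.2.2.2.2.2.1 p.2.2.2.2.2.2.2.2) := by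
  unfold GT; fun_prop

@[fun_prop] theorem pt_resE : PT (fun p : ℕ × ℕ × ℕ × ℕ × Finset ℕ ×
    List (Finset ℕ × List (Finset ℕ × List ℕ)) × Finset ℕ × List (Finset ℕ) × Finset ℕ × ℕ × ℕ =>
    resE p.1 p.2.1 p.2.2.1 p.2.2.2.1 p.2.2.2.2.1 p.2.2.2.2.2.1 p.2.2.2.2.2.2.1
      p.2.2.2.2.2.2.2.1 p.2.2.2.2.2.2.2.2.1 p.2.2.2.2.2.2.2.2.2.1 p.2.2.2.2.2.2.2.2.2.2) := by
  unfold resE; fun_prop

@[fun_prop] theorem pt_resT : PT (fun p : ℕ × ℕ × ℕ × ℕ × Finset ℕ ×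
    List (Finset ℕ × List (Finset ℕ × List ℕ)) × Finset ℕ × List (Finset ℕ) × Finset ℕ =>
    resT p.1 p.2.1 p.2.2.1 p.2.2.2.1 p.2.2.2.2.1 p.2.2.2.2.2.1 p.2.2.2.2.2.2.1
      p.2.2.2.2.2.2.2.1 p.2.2.2.2.2.2.2.2) := by
  unfold resT; fun_prop

@[fun_prop] theorem pt_nd : PT (fun p : ℕ × ℕ × ℕ × ℕ × Finset ℕ ×
    List (Finset ℕ × List (Finset ℕ × List ℕ)) × Finset ℕ =>
    nd p.1 p.2.1 p.2.2.1 p.2.2.2.1 p.2.2.2.2.1 p.2.2.2.2.2.1 p.2.2.2.2.2.2) := by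
  unfold nd; fun_prop

@[fun_prop] theorem pt_read : PT (fun p : ℕ × ℕ × List (Finset ℕ × List ℕ) =>
    read p.1 p.2.1 p.2.2) := by
  unfold read; fun_prop

end Pool.Agent.helper50.BT
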