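import Mathlib

/-!
# Project bs: (MP_b34eaa_lc), cluster part (section 4 of BS_NOTES.md), pure mathematics

All modules are independent: module `XX` proves `theorem XX ... : XX_stmt`, every other statement
of this file may be a hypothesis (no circles).
-/

set_option autoImplicit false
set_option linter.unusedVariables false
set_option linter.dupNamespace false

open Finset

open scoped Classical

noncomputable section

namespace Pool.Agent.BS

/-! ## Definitions -/

/-- Multiplicative Moebius transform of a function on finite sets. -/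
def mob {B G : Type*} [CommGroup G] (f : Finset B → G) (Q : Finset B) : G :=
  ∏ Q' ∈ Q.powerset, f Q' ^ ((-1 : ℤ) ^ (Q \ Q').card)

/-- Pairwise compatible families (`ic` : incompatibility of two different polymers). -/
def Compat {P : Type*} (ic : P → P → Prop) (T : Finset P) : Prop :=
  ∀ a ∈ T, ∀ b ∈ T, a ≠ b → ¬ ic a b

/-- Partition function of the polymers in `F` with weights `ω`. -/
def Xi {P R : Type*} [CommRing R] (ic : P → P → Prop) (ω : P → R) (F : Finset P) : R :=
  ∑ T ∈ F.powerset with Compat ic T, ∏ a ∈ T, ω a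

/-- The family `F` is not the union of two nonempty parts without incompatibilities between them. -/
def Linked {P : Type*} (ic : P → P → Prop) (F : Finset P) : Prop :=
  F.Nonempty ∧ ∀ F1 F2 : Finset P, F1.Nonempty → F2.Nonempty → Disjoint F1 F2 → F1 ∪ F2 = F →
    ∃ a ∈ F1, ∃ b ∈ F2, ic a b

/-- `b` can be reached from `a` by steps of `adj` inside `K`. -/
def Reach {X : Type*} (adj : X → X → Prop) (K : Finset X) (a b : X) : Prop :=
  Relation.ReflTransGen (fun u v => adj u v ∧ v ∈ K) a b

/-- Connected (nonempty) sets. -/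
def Conn {X : Type*} (adj : X → X → Prop) (K : Finset X) : Prop :=
  K.Nonempty ∧ ∀ a ∈ K, ∀ b ∈ K, Reach adj K a b

/-- Two sets which meet or are joined by a step of `adj`. -/
def Touch {X : Type*} (adj : X → X → Prop) (K L : Finset X) : Prop :=
  ∃ a ∈ K, ∃ b ∈ L, a = b ∨ adj a b

/-- The connected subsets of `X0`. -/
def Conns {X : Type*} (adj : X → X → Prop) (X0 : Finset X) : Finset (Finset X) :=
  X0.powerset.filter (fun K => Conn adj K)

/-! ## Moebius inversion -/

/-- CM1. Multiplicative Moebius inversion on finite sets.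
Proof. `∏_{Q ⊆ U} ∏_{Q' ⊆ Q} f Q' ^ ((-1)^|Q \ Q'|)`: exchange the products (`Finset.prod_comm'` /
sigma), the exponent of `f Q'` is the sum over `Q' ⊆ Q ⊆ U` of `(-1)^|Q \ Q'|`, which is the sum over the
subsets `D = Q \ Q'` of `U \ Q'` of `(-1)^|D|`, i.e. `0` unless `Q' = U`
(`Finset.sum_powerset_neg_one_pow_card`). Induction on `U` is an alternative. -/
def CM1_stmt : Prop :=
  ∀ (B G : Type) [CommGroup G] (f : Finset B → G) (U : Finset B),
    ∏ Q ∈ U.powerset, mob f Q = f U

/-- CM2. Uniqueness. Proof. Strong induction on `|U|`: by CM1 (for `mob f`) both products over the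
subsets of `U` are equal to `f U`, and the factors at the proper subsets agree. -/
def CM2_stmt : Prop :=
  ∀ (B G : Type) [CommGroup G] (f m : Finset B → G) (U : Finset B),
    (∀ V ⊆ U, ∏ Q ∈ V.powerset, m Q = f V) → m U = mob f U

/-! ## Polymer partition functions -/

/-- CX1. Factorisation. Proof. The map `(T1, T2) ↦ T1 ∪ T2` is a bijection from pairs of compatible
subsets of `F1`, `F2` to the compatible subsets of `F1 ∪ F2` (`Finset.sum_mul_sum`,
`Finset.sum_bij'` with inverse `T ↦ (T ∩ F1, T ∩ F2)`), and `prod_union`. -/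
def CX1_stmt : Prop :=
  ∀ (P R : Type) [CommRing R] (ic : P → P → Prop) (ω : P → R) (F1 F2 : Finset P),
    (∀ a b, ic a b → ic b a) → Disjoint F1 F2 → (∀ a ∈ F1, ∀ b ∈ F2, ¬ ic a b) →
    Xi ic ω (F1 ∪ F2) = Xi ic ω F1 * Xi ic ω F2

/-- CX2. Units. Proof. The term `T = ∅` is `1`, every other term is a multiple of some `ω a`, hence
nilpotent (`Commute.isNilpotent_mul_right`...), and a sum of nilpotents is nilpotent
(`isNilpotent_sum` or induction), `IsNilpotent.isUnit_one_add`. -/
def CX2_stmt : Prop :=
  ∀ (P R : Type) [CommRing R] (ic : P → P → Prop) (ω : P → R) (F : Finset P),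
    (∀ a ∈ F, IsNilpotent (ω a)) → IsUnit (Xi ic ω F)

/-- CX3. If the family splits into two nonempty mutually compatible parts, the Moebius factor
is `1`. Proof. Subsets of `G1 ∪ G2` are the `A ∪ B`, `A ⊆ G1`, `B ⊆ G2` (bijection), the sign is the product
of the signs, `f (A ∪ B) = f A * f B` (CX1, units are determined by their values). The product over `A` and
`B` of `f A ^ (s A * s B) * f B ^ (s A * s B)` is `1` because `∑_B s B = 0` (`B` runs over the subsets
of the nonempty set `G2`, `Finset.sum_powerset_neg_one_pow_card`), same for `A`. -/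
def CX3_stmt : Prop :=
  ∀ (P R : Type) [CommRing R] (ic : P → P → Prop) (ω : P → R) (f : Finset P → Rˣ)
    (G1 G2 : Finset P), (∀ a b, ic a b → ic b a) → (∀ F ⊆ G1 ∪ G2, (f F : R) = Xi ic ω F) →
    G1.Nonempty → G2.Nonempty → Disjoint G1 G2 → (∀ a ∈ G1, ∀ b ∈ G2, ¬ ic a b) →
    mob f (G1 ∪ G2) = 1

/-- CP1. A polynomial which vanishes when any one of the variables in `S` is put equal to zero is
divisible by their product. Proof. For `i ∈ S`: `X i ∣ p` because every monomial in the support of `p` has
exponent of `i` at least one (substitute `0`: the coefficients of the other monomials survive), see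
`MvPolynomial.X_dvd_iff_modMonomial_eq_zero`, or write `p = p0 + X i * p1` with
`p0 = aeval (update X i 0) p` (induction on `p`). Then `Finset.prod_dvd_of_isRelPrime` (the `X i` are
pairwise non-associated primes, `MvPolynomial.prime_X`), or direct induction on `S` with the
coefficients. -/
def CP1_stmt : Prop :=
  ∀ (P : Type) (S : Finset P) (p : MvPolynomial P ℤ),
    (∀ i ∈ S, MvPolynomial.aeval (Function.update (MvPolynomial.X : P → MvPolynomial P ℤ) i 0) p = 0) →
    (∏ i ∈ S, MvPolynomial.X i) ∣ p

/-- CX4. The even product minus the odd product of the partition functions of the subfamilies is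
divisible by the product of all the weights.
Proof. By naturality of `Xi` (ring homomorphism `MvPolynomial.aeval ω` from `MvPolynomial P ℤ`, weights
`X`) it is enough to treat the polynomial ring with `ω = X`, where CP1 applies: if `X i` is replaced by `0`,
`i ∈ G`, then `Xi F = Xi (F.erase i)`, so the even and the odd product are equal (the involution
`F ↦ F ∆ {i}` exchanges even and odd subfamilies of `G` and does not change `Xi`). -/
def CX4_stmt : Prop :=
  ∀ (P R : Type) [CommRing R] (ic : P → P → Prop) (ω : P → R) (G : Finset P), G.Nonempty →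
    (∏ a ∈ G, ω a) ∣
      ((∏ F ∈ G.powerset with Even (G \ F).card, Xi ic ω F) -
        ∏ F ∈ G.powerset with ¬ Even (G \ F).card, Xi ic ω F)

/-- CX5. Conclusion. Proof. `mob f G` is the even product times the inverse of the odd product
(`Finset.prod_filter_mul_prod_filter_not`, `Even.neg_one_pow`, `Odd.neg_one_pow`). If the product of the
weights is zero, then even = odd by CX4, so `mob f G = 1`. If `G` is not linked then CX3 applies. -/
def CX5_stmt : Prop :=
  ∀ (P R : Type) [CommRing R] (ic : P → P → Prop) (ω : P → R) (f : Finset P → Rˣ) (G : Finset P),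
    (∀ a b, ic a b → ic b a) → (∀ F ⊆ G, (f F : R) = Xi ic ω F) → G.Nonempty → mob f G ≠ 1 →
    Linked ic G ∧ ∏ a ∈ G, ω a ≠ 0

/-- CX6. Traces. Proof. Let `m Q` be the right side. For every `U`:
`∏_{Q ⊆ U} m Q = ∏_{G ⊆ {K ∈ F | tr K ⊆ U}} mob f G` (group the families `G` with union of traces inside `U`
by this union, `Finset.prod_fiberwise_of_maps_to` / `prod_biUnion`), which is `f {K ∈ F | tr K ⊆ U} = Z U` by
CM1. Conclude with CM2. -/
def CX6_stmt : Prop :=
  ∀ (P B R : Type) [CommRing R] (f : Finset P → Rˣ) (F : Finset P) (tr : P → Finset B)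
    (Z : Finset B → Rˣ) (Q : Finset B), (∀ U, Z U = f (F.filter (fun K => tr K ⊆ U))) →
    mob Z Q = ∏ G ∈ F.powerset with G.biUnion tr = Q, mob f G

/-! ## Connected sets -/

/-- CG1. The union of a linked family of connected sets is connected.
Proof. Let `U = G.biUnion id`, `a ∈ K0 ∈ G`. Let `G1` be the set of the members `K` of `G` such that all (equivalently
some) points of `K` are reachable from `a` inside `U`; `K0 ∈ G1`. If `G2 = G \ G1` is nonempty there are `K ∈ G1`,
`L ∈ G2` touching: `x ∈ K`, `y ∈ L`, `x = y` or `adj x y`; so `y` is reachable from `a`, and so is all of `L` (`Reach adj L`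
implies `Reach adj U`), contradiction. -/
def CG1_stmt : Prop :=
  ∀ (X : Type) (adj : X → X → Prop) (G : Finset (Finset X)), (∀ a b, adj a b → adj b a) →
    (∀ K ∈ G, Conn adj K) → Linked (Touch adj) G → Conn adj (G.biUnion id)

/-- CG2. Every finite set is the union of its components.
Proof. `T = {C | C = {b ∈ A | Reach adj A a b}, a ∈ A}` (image of `A`). Components are connected (a path inside `A`
from a point of the component stays in the component), nonempty, subsets of `A`, their union is `A`; two which touch are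
equal (symmetry of `Reach` for symmetric `adj` and points of `A`). -/
def CG2_stmt : Prop :=
  ∀ (X : Type) (adj : X → X → Prop) (A : Finset X), (∀ a b, adj a b → adj b a) →
    ∃ T : Finset (Finset X), (∀ K ∈ T, Conn adj K) ∧ Compat (Touch adj) T ∧ T.biUnion id = A

/-- CG3. Compatible families of connected sets are determined by their union.
Proof. By symmetry enough `T1 ⊆ T2`. Let `K ∈ T1`, `a ∈ K`; `a` lies in some `L ∈ T2`. `K ⊆ L`: walk inside `K` from `a`;
each new point lies in some member of `T2` which touches `L`, so it is `L` (compatibility). In the same way `L ⊆ K`. -/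
def CG3_stmt : Prop :=
  ∀ (X : Type) (adj : X → X → Prop) (T1 T2 : Finset (Finset X)), (∀ a b, adj a b → adj b a) →
    (∀ K ∈ T1, Conn adj K) → (∀ K ∈ T2, Conn adj K) → Compat (Touch adj) T1 →
    Compat (Touch adj) T2 → T1.biUnion id = T2.biUnion id → T1 = T2

/-- CG4. A function of finite sets which is multiplicative on non touching sets is the product over a
compatible family. Proof. Induction on `T` (`Finset.induction_on`): the new member `K` does not touch the union of
the others. -/
def CG4_stmt : Prop :=
  ∀ (X R : Type) [CommRing R] (adj : X → X → Prop) (ω : Finset X → R) (T : Finset (Finset X)),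
    (∀ a b, adj a b → adj b a) → ω ∅ = 1 → (∀ A B, ¬ Touch adj A B → ω (A ∪ B) = ω A * ω B) →
    Compat (Touch adj) T → ω (T.biUnion id) = ∏ K ∈ T, ω K

/-- CG5. Sum over all sets = polymer partition function of the connected sets.
Proof. `Finset.sum_bij` (or `sum_nbij`) from the compatible subfamilies `T` of
`(Conns adj X0).filter (K ∩ β ⊆ U)` to the sets `A ⊆ X0` with `A ∩ β ⊆ U`, `T ↦ T.biUnion id`: values by CG4, injective by
CG3, surjective by CG2. -/
def CG5_stmt : Prop :=
  ∀ (X R : Type) [CommRing R] (adj : X → X → Prop) (ω : Finset X → R) (X0 β U : Finset X),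
    (∀ a b, adj a b → adj b a) → ω ∅ = 1 → (∀ A B, ¬ Touch adj A B → ω (A ∪ B) = ω A * ω B) →
    ∑ A ∈ X0.powerset with A ∩ β ⊆ U, ω A =
      Xi (Touch adj) ω ((Conns adj X0).filter (fun K => K ∩ β ⊆ U))

/-- CG6. MAIN THEOREM of the cluster part (Lemma 4).
Proof. Put `f F = ` the unit with value `Xi (Touch adj) ω F` for subfamilies `F` of `Conns adj X0` (CX2; define `f F = 1` for
the other families), `tr K = K ∩ β`. By CG5 `Z U = f {K ∈ Conns adj X0 | tr K ⊆ U}`, by CX6 `mob Z Q` is the product of the
`mob f G` over the `G ⊆ Conns adj X0` with union of traces `Q`; since it is not `1` some `mob f G ≠ 1`; `G` is nonempty because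
`Q` is; CX5 gives linked and product of weights nonzero, CG1 gives connectedness of the union; and
`(G.biUnion id) ∩ β = G.biUnion tr = Q`. -/
def CG6_stmt : Prop :=
  ∀ (X R : Type) [CommRing R] (adj : X → X → Prop) (ω : Finset X → R) (X0 β : Finset X)
    (Z : Finset X → Rˣ) (Q : Finset X),
    (∀ a b, adj a b → adj b a) → ω ∅ = 1 → (∀ A B, ¬ Touch adj A B → ω (A ∪ B) = ω A * ω B) →
    (∀ A ⊆ X0, A.Nonempty → IsNilpotent (ω A)) →
    (∀ U, (Z U : R) = ∑ A ∈ X0.powerset with A ∩ β ⊆ U, ω A) →
    Q.Nonempty → mob Z Q ≠ 1 →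
    ∃ G : Finset (Finset X), G.Nonempty ∧ (∀ K ∈ G, K ⊆ X0 ∧ Conn adj K) ∧
      Conn adj (G.biUnion id) ∧ (G.biUnion id) ∩ β = Q ∧ ∏ K ∈ G, ω K ≠ 0

/-- CG7. The product formula. If `QQ` contains all nonempty `Q` with `mob Z Q ≠ 1`, then `Z U` is the product of `mob Z ∅` and
of the factors in `QQ` below `U`. Proof. CM1 and `Finset.prod_subset` (the missing factors are `1`). -/
def CG7_stmt : Prop :=
  ∀ (B G : Type) [CommGroup G] (Z : Finset B → G) (QQ : Finset (Finset B)) (U : Finset B),
    (∀ Q, Q.Nonempty → mob Z Q ≠ 1 → Q ∈ QQ) → ∅ ∉ QQ →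
    Z U = mob Z ∅ * ∏ Q ∈ QQ with Q ⊆ U, mob Z Q

/-- CG8. Inclusion-exclusion for exact traces on `D ⊆ β`: the sum over the sets with trace exactly `P` on `D`.
`H P = ∑_{A ⊆ X0, A ∩ D ⊆ P} w A`, `G P = ∑_{P' ⊆ P} (-1)^{|P \ P'|} H P'`. Proof. Exchange the sums; for fixed `A` with
trace `T = A ∩ D ⊆ P` the coefficient is the sum of `(-1)^{|P \ P'|}` over `T ⊆ P' ⊆ P`, i.e. `1` if `T = P`, else `0`. -/
def CG8_stmt : Prop :=
  ∀ (X R : Type) [CommRing R] (w : Finset X → R) (X0 D P : Finset X), P ⊆ D →
    ∑ P' ∈ P.powerset, (-1 : R) ^ (P \ P').card * (∑ A ∈ X0.powerset with A ∩ D ⊆ P', w A) =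
      ∑ A ∈ X0.powerset with A ∩ D = P, w A

end Pool.Agent.BS

end
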