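import Pool.Agent.helper50.BS.SpecC

/-!
# Project bs: (MP_b34eaa_lc), tables part, pure mathematics

Incidence graph of a graph, weights `c_W`, the sums `F_W(P)`, Lemma 2, application of the cluster
theorem, truncated ring. All modules are independent: module `XX` proves `theorem XX ... : XX_stmt`,
every other statement of SpecC and of this file may be a hypothesis (no circles).
-/

set_option autoImplicit false
set_option linter.unusedVariables false
set_option linter.dupNamespace false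

open Finset

open scoped Classical

noncomputable section

namespace Pool.Agent.BS

/-! ## Definitions -/

/-- Incidence data of a graph: the vertices are numbers, `E` is the set of edges (coded by numbers),
`s e`, `t e` are the two ends of the edge `e`. -/
structure IG where
  /-- edges -/
  E : Finset ℕ
  /-- first end -/
  s : ℕ → ℕ
  /-- second end -/
  t : ℕ → ℕ
  ne : ∀ e ∈ E, s e ≠ t e

namespace IG

variable (g : IG)

/-- edges touching `W` -/
def EW (W : Finset ℕ) : Finset ℕ := g.E.filter (fun e => g.s e ∈ W ∨ g.t e ∈ W)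

/-- edges leaving `W` (exactly one end in `W`) -/
def dl (W : Finset ℕ) : Finset ℕ := g.E.filter (fun e => ¬ (g.s e ∈ W ↔ g.t e ∈ W))

/-- vertex set of the incidence graph of `W`: vertices of `W` (`inl`) and edges touching `W` (`inr`) -/
def X0 (W : Finset ℕ) : Finset (ℕ ⊕ ℕ) := W.disjSum (g.EW W)

/-- adjacency of the incidence graph -/
def adj : ℕ ⊕ ℕ → ℕ ⊕ ℕ → Prop
  | .inl v, .inr e => e ∈ g.E ∧ (v = g.s e ∨ v = g.t e)
  | .inr e, .inl v => e ∈ g.E ∧ (v = g.s e ∨ v = g.t e)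
  | _, _ => False

/-- adjacency of vertices -/
def vadj (u v : ℕ) : Prop := ∃ e ∈ g.E, (u = g.s e ∧ v = g.t e) ∨ (u = g.t e ∧ v = g.s e)

/-- `c_W(A)`: number of incidences `(v, e)`, `v ∈ W`, with exactly one end in `A` -/
def cW (W : Finset ℕ) (A : Finset (ℕ ⊕ ℕ)) : ℕ :=
  ∑ e ∈ g.E, ((if g.s e ∈ W ∧ ¬ (Sum.inl (g.s e) ∈ A ↔ Sum.inr e ∈ A) then 1 else 0) +
    (if g.t e ∈ W ∧ ¬ (Sum.inl (g.t e) ∈ A ↔ Sum.inr e ∈ A) then 1 else 0))

/-- number of edges of `β` touching `S` -/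
def tt (β S : Finset ℕ) : ℕ := (β.filter (fun e => g.s e ∈ S ∨ g.t e ∈ S)).card

/-- the edges leaving the parts -/
def beta (PP : Finset (Finset ℕ)) : Finset ℕ := PP.biUnion g.dl

/-- Tight partitions (`κ = 2k`). -/
def Tight (κ : ℕ) (PP : Finset (Finset ℕ)) (W : Finset ℕ) : Prop :=
  ∀ A, A ⊆ W → A ≠ W → (g.dl A).card ≤ κ → g.tt (g.beta PP) A ≤ (g.dl A).card

end IG

/-- number of vertices of `W` in `A` -/
def nW (W : Finset ℕ) (A : Finset (ℕ ⊕ ℕ)) : ℕ := (A.toLeft ∩ W).card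

/-- number of edges of `β` in `A` -/
def bB (β : Finset ℕ) (A : Finset (ℕ ⊕ ℕ)) : ℕ := (A.toRight ∩ β).card

/-- Partitions of `W` into nonempty parts. -/
def IsPart (PP : Finset (Finset ℕ)) (W : Finset ℕ) : Prop :=
  (∀ C ∈ PP, C.Nonempty) ∧ (∀ C ∈ PP, ∀ D ∈ PP, C ≠ D → Disjoint C D) ∧ PP.biUnion id = W

/-- the weight of a set of the incidence graph -/
def om {R : Type} [CommRing R] (g : IG) (W β : Finset ℕ) (x y u : R) (A : Finset (ℕ ⊕ ℕ)) : R :=
  x ^ nW W A * y ^ g.cW W A * u ^ bB β A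

/-- `F_W(P)` -/
def FR {R : Type} [CommRing R] (g : IG) (x y : R) (W P : Finset ℕ) : R :=
  ∑ A ∈ (g.X0 W).powerset with A.toRight ∩ g.dl W = P, x ^ nW W A * y ^ g.cW W A

/-- `w(S)` -/
def wR {R : Type} [CommRing R] (g : IG) (x y : R) (PP : Finset (Finset ℕ)) (S : Finset ℕ) : R :=
  ∏ C ∈ PP, FR g x y C (S ∩ g.dl C)

/-- number of sets with given data (`P` exact trace on `dl W`, `a` vertices, `c` cut incidences) -/
def cnt (g : IG) (W P : Finset ℕ) (a c : ℕ) : ℕ :=
  ((g.X0 W).powerset.filter (fun A => A.toRight ∩ g.dl W = P ∧ nW W A = a ∧ g.cW W A = c)).card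

/-- the same with `j` edges of `β` -/
def cntj (g : IG) (W β P : Finset ℕ) (a c j : ℕ) : ℕ :=
  ((g.X0 W).powerset.filter
    (fun A => A.toRight ∩ g.dl W = P ∧ nW W A = a ∧ g.cW W A = c ∧ bB β A = j)).card

/-- Truncated rings: `(Z/M)[x,y,u]/(x^{n+1}, y^{k+1}, u^{l+1})`, given by its coefficient functions. -/
structure TR (M n k l : ℕ) where
  /-- the ring -/
  R : Type
  [ring : CommRing R]
  /-- variable -/
  x : R
  /-- variable -/
  y : R
  /-- variable -/
  u : R
  /-- coefficient of `x^a y^c u^j` -/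
  cf : ℕ → ℕ → ℕ → R →+ ZMod M
  hx : x ^ (n + 1) = 0
  hy : y ^ (k + 1) = 0
  hu : u ^ (l + 1) = 0
  cf_mon : ∀ a c j a' c' j' : ℕ, a ≤ n → c ≤ k → j ≤ l →
    cf a c j (x ^ a' * y ^ c' * u ^ j') = if a' = a ∧ c' = c ∧ j' = j then 1 else 0
  cf_mul : ∀ (a c j : ℕ) (r r' : R), a ≤ n → c ≤ k → j ≤ l →
    cf a c j (r * r') = ∑ a1 ∈ range (a + 1), ∑ c1 ∈ range (c + 1), ∑ j1 ∈ range (j + 1),
      cf a1 c1 j1 r * cf (a - a1) (c - c1) (j - j1) r'
  ext : ∀ r r' : R, (∀ a c j : ℕ, a ≤ n → c ≤ k → j ≤ l → cf a c j r = cf a c j r') → r = r'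

attribute [instance] TR.ring

/-! ## TA: weights -/

/-- TA1. `adj` is symmetric and `c_W` is additive on sets which do not touch.
Proof. For every edge `e ∈ E` and every end `v`: if `v ∈ A` then `e ∉ B` (adjacent) and `v ∉ B`; if `v ∈ B` symmetric;
otherwise both indicators only depend on `e ∈ A`, `e ∈ B`, which exclude each other. -/
def TA1_stmt : Prop :=
  ∀ (g : IG), (∀ a b, g.adj a b → g.adj b a) ∧ ∀ (W : Finset ℕ) (A B : Finset (ℕ ⊕ ℕ)),
    ¬ Touch g.adj A B → g.cW W (A ∪ B) = g.cW W A + g.cW W B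

/-- TA2. `nW` and `bB` are additive on disjoint sets. Proof: `toLeft` and `toRight` commute with unions,
`card_union_of_disjoint`. -/
def TA2_stmt : Prop :=
  ∀ (W β : Finset ℕ) (A B : Finset (ℕ ⊕ ℕ)), Disjoint A B →
    nW W (A ∪ B) = nW W A + nW W B ∧ bB β (A ∪ B) = bB β A + bB β B

/-- TA3. The weight is multiplicative. Proof: TA1, TA2 (not touching implies disjoint), `pow_add`. -/
def TA3_stmt : Prop :=
  ∀ (g : IG) (R : Type) [CommRing R] (W β : Finset ℕ) (x y u : R), om g W β x y u ∅ = 1 ∧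
    ∀ A B, ¬ Touch g.adj A B → om g W β x y u (A ∪ B) = om g W β x y u A * om g W β x y u B

/-- TA4. Weights of nonempty sets are nilpotent. Proof: `A` contains a vertex of `W` (then `nW ≥ 1`), or it contains
only edges; then `e ∈ A` has an end `v ∈ W`, `v ∉ A`, so `c_W(A) ≥ 1`. -/
def TA4_stmt : Prop :=
  ∀ (g : IG) (R : Type) [CommRing R] (W β : Finset ℕ) (x y u : R), IsNilpotent x → IsNilpotent y →
    ∀ A ⊆ g.X0 W, A.Nonempty → IsNilpotent (om g W β x y u A)

/-- TA5. Subadditivity over unions of families. Proof: an incidence with exactly one end in the union has exactly one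
end in some member (the member containing the end which is inside); `card_biUnion_le`; the inequality for a
family by induction from the one for two sets. -/
def TA5_stmt : Prop :=
  ∀ (g : IG) (W β : Finset ℕ) (G : Finset (Finset (ℕ ⊕ ℕ))),
    g.cW W (G.biUnion id) ≤ ∑ K ∈ G, g.cW W K ∧ bB β (G.biUnion id) ≤ ∑ K ∈ G, bB β K

/-! ## TB: partitions -/

/-- TB1. `dl W ⊆ beta PP ⊆ EW W`, `dl C ⊆ beta PP`, and edges of `EW C ∩ EW D` (different parts) are in `dl C ∩ dl D`. -/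
def TB1_stmt : Prop :=
  ∀ (g : IG) (PP : Finset (Finset ℕ)) (W : Finset ℕ), IsPart PP W →
    g.dl W ⊆ g.beta PP ∧ g.beta PP ⊆ g.EW W ∧ (∀ C ∈ PP, C ⊆ W) ∧
    (∀ C ∈ PP, ∀ D ∈ PP, C ≠ D → g.EW C ∩ g.EW D ⊆ g.dl C ∩ g.dl D) ∧
    (∀ C ∈ PP, g.EW C ∩ g.beta PP = g.dl C)

/-- TB2. Additivity over the parts. Proof: `v ∈ W` lies in exactly one part; the incidences at `v ∈ C` only see
`A ∩ X0 C`. -/
def TB2_stmt : Prop :=
  ∀ (g : IG) (PP : Finset (Finset ℕ)) (W : Finset ℕ) (A : Finset (ℕ ⊕ ℕ)), IsPart PP W →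
    g.cW W A = ∑ C ∈ PP, g.cW C (A ∩ g.X0 C) ∧ nW W A = ∑ C ∈ PP, nW C (A ∩ g.X0 C)

/-- TB3. Gluing: sets `A ⊆ X0 W` with trace `S` on `beta PP` correspond to the families `(A_C)`, `A_C ⊆ X0 C` with
trace `S ∩ dl C` on `dl C`. Proof: `Finset.prod_sum` writes the right side as a sum over `PP.pi ...`; the bijection is
`A ↦ (A ∩ X0 C)`, inverse: the union (use TB1: an edge in two of the `EW C` is in both `dl C`, hence in `A_C` iff in `S`).
Alternative: induction over the number of parts for a more general statement. -/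
def TB3_stmt : Prop :=
  ∀ (g : IG) (R : Type) [CommRing R] (PP : Finset (Finset ℕ)) (W S : Finset ℕ)
    (f : Finset ℕ → Finset (ℕ ⊕ ℕ) → R), IsPart PP W → S ⊆ g.beta PP →
    ∑ A ∈ (g.X0 W).powerset with A.toRight ∩ g.beta PP = S, ∏ C ∈ PP, f C (A ∩ g.X0 C) =
      ∏ C ∈ PP, ∑ B ∈ (g.X0 C).powerset with B.toRight ∩ g.dl C = S ∩ g.dl C, f C B

/-- TB4. `w(S)` is the sum over the sets with trace `S`. Proof: TB3 with `f C B = x^nW y^cW`, TB2. -/
def TB4_stmt : Prop :=
  ∀ (g : IG) (R : Type) [CommRing R] (x y : R) (PP : Finset (Finset ℕ)) (W S : Finset ℕ),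
    IsPart PP W → S ⊆ g.beta PP →
    wR g x y PP S =
      ∑ A ∈ (g.X0 W).powerset with A.toRight ∩ g.beta PP = S, x ^ nW W A * y ^ g.cW W A

/-- TB5. `Z_U` as a sum over sets. Proof: TB4, group the sets by their trace (`Finset.sum_fiberwise_of_maps_to`). -/
def TB5_stmt : Prop :=
  ∀ (g : IG) (R : Type) [CommRing R] (x y u : R) (PP : Finset (Finset ℕ)) (W U : Finset ℕ),
    IsPart PP W → U ⊆ g.beta PP →
    ∑ S ∈ U.powerset, u ^ S.card * wR g x y PP S =
      ∑ A ∈ (g.X0 W).powerset with A.toRight ∩ g.beta PP ⊆ U, om g W (g.beta PP) x y u A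

/-- TB6. Singletons. Proof: `X0 {v} = {v} ∪ EW {v}`, `EW {v} = dl {v}` (the ends of an edge are different). The set `A` is `P` or
`P` together with `v`; `c_{v}` counts the edges of `P`, resp. the edges at `v` outside `P`. -/
def TB6_stmt : Prop :=
  ∀ (g : IG) (R : Type) [CommRing R] (x y : R) (v : ℕ) (P : Finset ℕ), P ⊆ g.dl {v} →
    FR g x y {v} P = y ^ P.card + x * y ^ ((g.dl {v}).card - P.card)

/-! ## TC: Lemma 2 and relatives -/

/-- TC1. Small or co-small (Lemma 2), with the side. Let `A1 = A.toLeft`, `B1 = W \ A1`. Every edge of `dl W` touches exactly one of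
`A1`, `B1`, so one of them, `D`, touches at most `k` edges of `dl W`, and `|dl D| ≤ e(A1,B1) + k ≤ c_W(A) + k ≤ 2k` (an edge
between `A1` and `B1` has exactly one of its two incidences cut). If `D = W` then the other one is empty, take it instead.
Tightness: `tt beta D ≤ 2k`. If `D = A1` (first alternative): the edges of `A ∩ beta` touching `A1` are at most `2k`, each other
one has an end `w ∈ B1` and `(w, e)` is counted in `c_W(A)`. If `D = B1` the same for `beta \ A`. -/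
def TC1_stmt : Prop :=
  ∀ (g : IG) (k : ℕ) (PP : Finset (Finset ℕ)) (W : Finset ℕ) (A : Finset (ℕ ⊕ ℕ)), IsPart PP W →
    (g.dl W).card ≤ 2 * k → g.Tight (2 * k) PP W → A ⊆ g.X0 W → g.cW W A ≤ k →
    (A.toLeft ≠ W ∧ (g.dl A.toLeft).card ≤ 2 * k ∧ (A.toRight ∩ g.beta PP).card ≤ 3 * k) ∨
      (g.beta PP \ A.toRight).card ≤ 3 * k

/-- TC2. Connected sets of the incidence graph. Proof. Let `K` be connected with `K.toLeft` nonempty. Every edge of `K` is adjacent
inside `K` to some vertex (a path in `K` from `e` to a vertex starts with a step to an end of `e`). A path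
in `K` between two vertices alternates, `u, e, v` with `u ≠ v` gives `vadj u v`. If `K.toLeft` is empty, `K` has one point (no two
edges are adjacent). -/
def TC2_stmt : Prop :=
  ∀ (g : IG) (K : Finset (ℕ ⊕ ℕ)), Conn g.adj K →
    (K.toLeft = ∅ → ∃ e, K = {Sum.inr e}) ∧
    (K.toLeft.Nonempty → Conn g.vadj K.toLeft ∧
      ∀ e ∈ K.toRight, g.s e ∈ K.toLeft ∨ g.t e ∈ K.toLeft)

/-- TC3. The list `QQ` for large `beta`. Hypotheses: `LL` is a list of vertex sets (all the important sets) such that every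
connected proper subset `K1` of `W` with `|dl K1| ≤ 2k` is contained in some member, and every member is a proper
subset of `W` with `|dl| ≤ 2k`. Conclusion for a connected `K` with `c_W(K) ≤ k` and at most `3k` edges of
`beta`, `|beta| > 6k`: its trace is a singleton or is contained in `beta(R)`, `R ∈ LL`, which has at most `2k` elements.
Proof: TC1 (the second alternative contradicts `|beta| > 6k`), TC2. -/
def TC3_stmt : Prop :=
  ∀ (g : IG) (k : ℕ) (PP : Finset (Finset ℕ)) (W : Finset ℕ) (K : Finset (ℕ ⊕ ℕ))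
    (LL : List (Finset ℕ)), IsPart PP W →
    (g.dl W).card ≤ 2 * k → g.Tight (2 * k) PP W →
    (∀ K1, K1 ⊆ W → K1 ≠ W → Conn g.vadj K1 → (g.dl K1).card ≤ 2 * k → ∃ R ∈ LL, K1 ⊆ R) →
    (∀ R ∈ LL, R ⊆ W ∧ R ≠ W ∧ (g.dl R).card ≤ 2 * k) →
    K ⊆ g.X0 W → Conn g.adj K → g.cW W K ≤ k → (K.toRight ∩ g.beta PP).card ≤ 3 * k →
    6 * k < (g.beta PP).card → (K.toRight ∩ g.beta PP).Nonempty →
    (∃ e ∈ g.beta PP, K.toRight ∩ g.beta PP = {e}) ∨
      ∃ R ∈ LL, K.toRight ∩ g.beta PP ⊆ (g.beta PP).filter (fun e => g.s e ∈ R ∨ g.t e ∈ R) ∧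
        ((g.beta PP).filter (fun e => g.s e ∈ R ∨ g.t e ∈ R)).card ≤ 2 * k

/-- TC4. Complements in `X0 W`. Proof: exactly one of `v`, `e` in `A` iff exactly one in the complement, for `v ∈ W`,
`e ∈ EW W`; cardinalities. -/
def TC4_stmt : Prop :=
  ∀ (g : IG) (W β : Finset ℕ) (A : Finset (ℕ ⊕ ℕ)), A ⊆ g.X0 W → β ⊆ g.EW W →
    g.cW W (g.X0 W \ A) = g.cW W A ∧ nW W (g.X0 W \ A) + nW W A = W.card ∧
    bB β (g.X0 W \ A) + bB β A = β.card ∧
    (g.X0 W \ A).toRight ∩ g.dl W = g.dl W \ (A.toRight ∩ g.dl W)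

/-- TC5. THE COUNT FORMULA. Proof. By TC1 every counted `A` has `bB ≤ 3k`, or `bB > 3k` and `|beta| - bB ≤ 3k`. The first kind is
partitioned by `j = bB`; the second kind corresponds by complement (TC4) to the sets with trace `dl W \ P`, `|W| - a` vertices
and `j = |beta| - bB ≤ 3k` edges, `3k < |beta| - j`. -/
def TC5_stmt : Prop :=
  ∀ (g : IG) (k : ℕ) (PP : Finset (Finset ℕ)) (W P : Finset ℕ) (a c : ℕ), IsPart PP W →
    (g.dl W).card ≤ 2 * k → g.Tight (2 * k) PP W → P ⊆ g.dl W → c ≤ k → a ≤ W.card →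
    cnt g W P a c = ∑ j ∈ range (3 * k + 1), cntj g W (g.beta PP) P a c j +
      ∑ j ∈ (range (3 * k + 1)).filter (fun j => 3 * k + j < (g.beta PP).card),
        cntj g W (g.beta PP) (g.dl W \ P) (W.card - a) c j

/-! ## TD: application of the cluster theorem -/

/-- TD1. The cluster theorem for the incidence graph. Proof. CG6 with `X0 = g.X0 W`, `β = (beta).map inr` (`Function.Embedding.inr`),
weights `om` (TA1, TA3, TA4), the function `U ↦ Z` of the preimage of `U`; `mob` of the transported function is `mob Z Q`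
(bijection of the subsets of `Q.map inr` with those of `Q`). From `∏ om K ≠ 0`: `y^(∑ c_W(K)) ≠ 0`, `u^(∑ bB K) ≠ 0`,
so the exponents are at most `k`, `l`; TA5. -/
def TD1_stmt : Prop :=
  ∀ (g : IG) (R : Type) [CommRing R] (W β : Finset ℕ) (x y u : R) (k l : ℕ) (Z : Finset ℕ → Rˣ)
    (Q : Finset ℕ), IsNilpotent x → y ^ (k + 1) = 0 → u ^ (l + 1) = 0 →
    (∀ U, (Z U : R) = ∑ A ∈ (g.X0 W).powerset with A.toRight ∩ β ⊆ U, om g W β x y u A) →
    Q.Nonempty → mob Z Q ≠ 1 →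
    ∃ K ⊆ g.X0 W, Conn g.adj K ∧ K.toRight ∩ β = Q ∧ g.cW W K ≤ k ∧ Q.card ≤ l

/-- TD2. `Z` is a unit. Proof: the term `A = ∅` is `1`, the others are nilpotent (TA3, TA4). -/
def TD2_stmt : Prop :=
  ∀ (g : IG) (R : Type) [CommRing R] (W β U : Finset ℕ) (x y u : R),
    IsNilpotent x → IsNilpotent y →
    IsUnit (∑ A ∈ (g.X0 W).powerset with A.toRight ∩ β ⊆ U, om g W β x y u A)

/-- TD3. Exact traces by inclusion and exclusion. Proof. For `P' ⊆ dl W ⊆ β`: `A.toRight ∩ β ⊆ β \ (dl W \ P')` iff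
`A.toRight ∩ dl W ⊆ P'`; exchange sums as in CG8. -/
def TD3_stmt : Prop :=
  ∀ (g : IG) (R : Type) [CommRing R] (W β P : Finset ℕ) (w : Finset (ℕ ⊕ ℕ) → R),
    g.dl W ⊆ β → P ⊆ g.dl W →
    ∑ P' ∈ P.powerset, (-1 : R) ^ (P \ P').card *
        (∑ A ∈ (g.X0 W).powerset with A.toRight ∩ β ⊆ β \ (g.dl W \ P'), w A) =
      ∑ A ∈ (g.X0 W).powerset with A.toRight ∩ g.dl W = P, w A

/-- TD4. Product formula. Proof. CG7 for `U = β \ (dl W \ P)` (the subsets `Q ⊆ β` below `U` are those with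
`Q ∩ dl W ⊆ P`), TD1 shows that `QQ` contains all `Q` with factor different from one. -/
def TD4_stmt : Prop :=
  ∀ (g : IG) (R : Type) [CommRing R] (W β P : Finset ℕ) (x y u : R) (k l : ℕ)
    (Z : Finset ℕ → Rˣ) (QQ : Finset (Finset ℕ)),
    IsNilpotent x → y ^ (k + 1) = 0 → u ^ (l + 1) = 0 →
    (∀ U, (Z U : R) = ∑ A ∈ (g.X0 W).powerset with A.toRight ∩ β ⊆ U, om g W β x y u A) →
    (∀ Q ∈ QQ, Q ⊆ β ∧ Q.Nonempty) →
    (∀ K ⊆ g.X0 W, Conn g.adj K → g.cW W K ≤ k → (K.toRight ∩ β).card ≤ l →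
      (K.toRight ∩ β).Nonempty → K.toRight ∩ β ∈ QQ) →
    g.dl W ⊆ β → P ⊆ g.dl W →
    Z (β \ (g.dl W \ P)) = mob Z ∅ * ∏ Q ∈ QQ with Q ∩ g.dl W ⊆ P, mob Z Q

/-! ## TR: truncated rings -/

/-- TR1. Existence of the truncated ring. Proof: quotient of `MvPowerSeries (Fin 3) (ZMod M)` (or of `MvPolynomial`) by the ideal of
the series whose coefficients in the box `e 0 ≤ n, e 1 ≤ k, e 2 ≤ l` vanish; `cf a c j` is the coefficient (for the
exponent `(a, c, j)` in the box, `0` outside); `MvPowerSeries.coeff_mul` and the bijection of the antidiagonal with the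
triples. Alternatively iterated power series. -/
def TR1_stmt : Prop := ∀ M n k l : ℕ, Nonempty (TR M n k l)

/-- TR2. Inverses. If the constant coefficient of `r` is `1`, then `1 - r` is nilpotent of order `n + k + l + 1`:
`(1 - r)^{n+k+l+1} = 0`. Proof: by induction on `i` the coefficients of `(1-r)^i` with `a + c + j < i` vanish
(`cf_mul`), then `ext`. Conclusion with `mul_geom_sum`. -/
def TR2_stmt : Prop :=
  ∀ (M n k l : ℕ) (T : TR M n k l) (r : T.R), T.cf 0 0 0 r = 1 →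
    r * ∑ i ∈ range (n + k + l + 1), (1 - r) ^ i = 1

/-- TR3. Coefficients of sums of weights are numbers of sets. Proof: `cf` is additive, `cf_mon`. -/
def TR3_stmt : Prop :=
  ∀ (M n k l : ℕ) (T : TR M n k l) (g : IG) (W β P : Finset ℕ) (a c j : ℕ),
    a ≤ n → c ≤ k → j ≤ l →
    T.cf a c j (∑ A ∈ (g.X0 W).powerset with A.toRight ∩ g.dl W = P, om g W β T.x T.y T.u A) =
      (cntj g W β P a c j : ZMod M) ∧
    T.cf a c 0 (FR g T.x T.y W P) = (cnt g W P a c : ZMod M)

/-- TR4. Small moduli detect small nonzero numbers. Proof. Suppose every `m` with `1 ≤ m ≤ 2B + 2` divides `N`. Put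
`b = B + 1`. All prime powers dividing `centralBinom b` are at most `2b` (`Nat.pow_factorization_choose_le`), so they
divide `N` and `centralBinom b ∣ N` (`Nat.factorization_le_iff_dvd`), `N ≥ centralBinom b ≥ 4^b / (2b) ≥ 2^B`
(`Nat.four_pow_le_two_mul_self_mul_centralBinom`, `2 b ≤ 2^b`). -/
def TR4_stmt : Prop :=
  ∀ (B N : ℕ), 0 < N → N < 2 ^ B → ∃ m, 2 ≤ m ∧ m ≤ 2 * B + 2 ∧ (N : ZMod m) ≠ 0

/-! ## TE: the final answer in terms of counts -/

/-- TE1. The minimum of `c(A)` over the sets `A` with given vertices is the cut size, for the whole graph.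
`V` contains all the ends. Proof. Given `A1 ⊆ V` with `|dl A1| ≤ k` take `A = A1 ∪ {e | e touches A1}`: `c = |dl A1|`. Conversely for every `A`,
`|dl (A.toLeft)| ≤ c_V(A)` (an edge leaving `A.toLeft` has exactly one of its two incidences cut). -/
def TE1_stmt : Prop :=
  ∀ (g : IG) (V : Finset ℕ) (k a : ℕ), (∀ e ∈ g.E, g.s e ∈ V ∧ g.t e ∈ V) →
    ((∃ A1 ⊆ V, A1.card = a ∧ (g.dl A1).card ≤ k) ↔ ∃ c ≤ k, 0 < cnt g V ∅ a c)

/-- TE2. Total number of sets. `cnt g W P a c ≤ 2 ^ (W.card + (g.EW W).card)`. -/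
def TE2_stmt : Prop :=
  ∀ (g : IG) (W P : Finset ℕ) (a c : ℕ), cnt g W P a c ≤ 2 ^ (W.card + (g.EW W).card)

end Pool.Agent.BS

end
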