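import Pool.Agent.helper50.BS.DefsU
import Pool.Agent.helper50.BS.SpecT
import Pool.Agent.helper81.BS.SpecG

/-!
# Project bs: (MP_b34eaa_lc), correctness of the table functions

All modules are independent: module `XX` proves `theorem XX ... : XX_stmt`; every statement of SpecC,
SpecT, SpecG (helper81) and every EARLIER statement of this file may be a hypothesis.
No machine model here: `cfold`, `citer` are folds and iterations with clipping (lemmas `cfold_inv`,
`citer_inv` in helper81/PL/Clip.lean; `Fits` is unfolded by simp), `eqb`, `leb`, `fsub`, `fmem` are Boolean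
versions of `=`, `≤`, `⊆`, `∈` (unfold them).
-/

set_option autoImplicit false
set_option linter.unusedVariables false
set_option linter.dupNamespace false

open scoped Classical

noncomputable section

namespace Pool.Agent.helper50.BT

open Pool.Agent.helper81.PL

/-- The incidence data of a coded graph. -/
def ig (n : ℕ) (E : Finset ℕ) (h : helper81.BS.WF n E) : BS.IG :=
  ⟨E, fun e => e / n, fun e => e % n, fun e he => (h e he).1.ne⟩

/-- `L` represents the ring element `r`. -/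
def Rp {M n k l : ℕ} (T : BS.TR M n k l) (L : List ℕ) (r : T.R) : Prop :=
  L.length = (n + 1) * (k + 1) * (l + 1) ∧ (∀ x ∈ L, x < M) ∧
    ∀ a c j : ℕ, a ≤ n → c ≤ k → j ≤ l → (cfT k l L a c j : ZMod M) = T.cf a c j r

/-- The padding is large enough. -/
def Big (N n k M : ℕ) : Prop :=
  n * n + n + 1 + 4 ^ (2 * k) + 2 ^ (6 * k + 1) + (n + 1) * (k + 1) * (3 * k + 1) + M ≤ N

/-- correct table of `W` -/
def okT {M n k : ℕ} (E : Finset ℕ) (h : helper81.BS.WF n E) (T : BS.TR M n k (3 * k)) (W : Finset ℕ)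
    (tab : List (Finset ℕ × List ℕ)) : Prop :=
  ∀ P ⊆ helper81.BS.dl n E W, ∃ r, tab.find? (fun r => eqb r.1 P) = some r ∧
    Rp T r.2 (BS.FR (ig n E h) T.x T.y W P)

/-- The standing hypotheses at a node `W` with tight partition `PP` and tables `Tl`. -/
structure Hyp (N M n k : ℕ) (E W : Finset ℕ) (PP : List (Finset ℕ))
    (Tl : List (Finset ℕ × List (Finset ℕ × List ℕ))) (h : helper81.BS.WF n E)
    (T : BS.TR M n k (3 * k)) : Prop where
  big : Big N n k M
  two : 2 ≤ M
  sub : W ⊆ Finset.range n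
  tight : helper81.BS.Tight n E W k PP
  dW : helper81.BS.dd n E W ≤ 2 * k
  tl : ∀ C ∈ PP, 2 ≤ C.card → ∃ q, Tl.find? (fun q => eqb q.1 C) = some q ∧ okT E h T C q.2

/-! ## Conversions -/

/-- UA1. The functions of the graph part are those of the incidence data. Proof: unfold; `xor (decide p) (decide q) = true`
iff `¬ (p ↔ q)`. -/
def UA1_stmt : Prop :=
  ∀ (n : ℕ) (E : Finset ℕ) (h : helper81.BS.WF n E),
    (∀ W, (ig n E h).dl W = helper81.BS.dl n E W) ∧ (∀ W, (ig n E h).EW W = helper81.BS.tch n E W) ∧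
    (∀ B W, (ig n E h).tt B W = helper81.BS.tt n B W) ∧ (∀ W, helper81.BS.dl n E W ⊆ E) ∧
    (∀ e ∈ E, e < n * n)

/-- UA2. Partitions. `unions PP = W` is `PP.toFinset.biUnion id = W`; nonempty and pairwise disjoint lists have no
duplicates; `beta`: an edge touching `W` is not inside a part iff it leaves some part. -/
def UA2_stmt : Prop :=
  ∀ (n : ℕ) (E W : Finset ℕ) (h : helper81.BS.WF n E) (PP : List (Finset ℕ)),
    helper81.BS.IsPart W PP →
    PP.Nodup ∧ BS.IsPart PP.toFinset W ∧ (ig n E h).beta PP.toFinset = helper81.BS.beta n E W PP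

/-- UA3. Tightness (UA1, UA2). -/
def UA3_stmt : Prop :=
  ∀ (n k : ℕ) (E W : Finset ℕ) (h : helper81.BS.WF n E) (PP : List (Finset ℕ)),
    helper81.BS.Tight n E W k PP → (ig n E h).Tight (2 * k) PP.toFinset W

/-- UA4. Connected sets. Proof: `vadj u v` gives `adjb n E u v = true` (an edge code is `(e / n) * n + e % n`); if `X ⊆ K`
contains `v` and is not `K`, follow a path from `v` to a vertex of `K \ X` and take the first step leaving `X`. -/
def UA4_stmt : Prop :=
  ∀ (n : ℕ) (E K : Finset ℕ) (h : helper81.BS.WF n E), BS.Conn (ig n E h).vadj K →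
    ∃ v, helper81.BS.Conn n E v K

/-! ## Lists -/

/-- UB1. Subsets. Proof: `cfold_inv` with the invariant over prefixes, or `cfold_eq`: by induction over the (sorted,
duplicate free) list the fold over a list with element set `S'` is a duplicate free list of all the subsets of `S'`, of
length `2 ^ |S'| ≤ N`, all elements `< N`. -/
def UB1_stmt : Prop :=
  ∀ (N : ℕ) (S : Finset ℕ), (∀ e ∈ S, e < N) → 2 ^ S.card ≤ N →
    (psub N S).Nodup ∧ ∀ Q, Q ∈ psub N S ↔ Q ⊆ S

/-- UB2. Coefficient lists. Proof: lengths of `flatMap`s of lists of constant length, `List.getD` of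
such a list (a general lemma: the `(i * m + r)`-th element of `(range p).flatMap g`, all `g i` of length `m`, `r < m`, is the `r`-th
element of `g i`). -/
def UB2_stmt : Prop :=
  ∀ (n k l : ℕ) (f : ℕ → ℕ → ℕ → ℕ) (L : List ℕ),
    L = (List.range (n + 1)).flatMap (fun a => (List.range (k + 1)).flatMap (fun c =>
      (List.range (l + 1)).map (fun j => f a c j))) →
    L.length = (n + 1) * (k + 1) * (l + 1) ∧
    (∀ a c j, a ≤ n → c ≤ k → j ≤ l → cfT k l L a c j = f a c j) ∧
    ∀ x ∈ L, ∃ a c j, a ≤ n ∧ c ≤ k ∧ j ≤ l ∧ x = f a c j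

/-- UB3. Monomials, one, zero. Proof: UB2, `cf_mon`; `(1 % M : ℕ)` is `1` in `ZMod M`. -/
def UB3_stmt : Prop :=
  ∀ (M n k l : ℕ) (T : BS.TR M n k l), 2 ≤ M →
    (∀ a c j, Rp T (monT M n k l a c j) (T.x ^ a * T.y ^ c * T.u ^ j)) ∧
    Rp T (oneT M n k l) 1 ∧ Rp T (zeroT n k l) 0

/-- UB4. Sums and differences. Proof: `cfT` of a `zipWith` at a place below both lengths; `(p + q) % M` and
`(p + (M - q)) % M`, `q < M`, in `ZMod M`; `cf` is additive. -/
def UB4_stmt : Prop :=
  ∀ (M n k l : ℕ) (T : BS.TR M n k l) (A B : List ℕ) (r r' : T.R), 2 ≤ M → Rp T A r → Rp T B r' →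
    Rp T (addT M A B) (r + r') ∧ Rp T (subT M A B) (r - r')

/-- UB5. Products. Proof: UB2, `cf_mul`, casts (sums over `List.range` are sums over `Finset.range`). -/
def UB5_stmt : Prop :=
  ∀ (M n k l : ℕ) (T : BS.TR M n k l) (A B : List ℕ) (r r' : T.R), 2 ≤ M → Rp T A r → Rp T B r' →
    Rp T (mulT M n k l A B) (r * r')

/-- UB6. Products and sums of lists. Proof: `cfold_inv`-like induction: all intermediate values are represented
(`Rp`), hence fit (length and entries at most `N`): prove by induction over the list with general initial value. -/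
def UB6_stmt : Prop :=
  ∀ (N M n k l : ℕ) (T : BS.TR M n k l) (ι : Type) (L : List ι) (f : ι → List ℕ) (r : ι → T.R),
    2 ≤ M → (n + 1) * (k + 1) * (l + 1) ≤ N → M ≤ N → (∀ i ∈ L, Rp T (f i) (r i)) →
    Rp T (prodT N M n k l (L.map f)) (L.map r).prod ∧ Rp T (sumT N M n k l (L.map f)) (L.map r).sum

/-- UB7. Inverses. Proof: the iterates are represented by `∑_{i < m} (1 - r)^i` (`m` steps, UB3, UB4, UB5; they
fit), then TR2. -/
def UB7_stmt : Prop :=
  ∀ (N M n k l : ℕ) (T : BS.TR M n k l) (A : List ℕ) (r : T.R),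
    2 ≤ M → (n + 1) * (k + 1) * (l + 1) ≤ N → M ≤ N → Rp T A r → T.cf 0 0 0 r = 1 →
    ∃ r', r * r' = 1 ∧ Rp T (invT N M n k l A) r'

/-- UB8. Two representations. If `Rp T L r` and `Rp T L r'` then `r = r'` (`TR.ext`). Trivial. -/
def UB8_stmt : Prop :=
  ∀ (M n k l : ℕ) (T : BS.TR M n k l) (L : List ℕ) (r r' : T.R), Rp T L r → Rp T L r' → r = r'

/-! ## The functions at a node -/

/-- UC1. `F_C(P)`. Proof: if `card C ≤ 1` then `C = {v}`, TB6, UB3, UB4 (`dd = card of dl`, UA1); otherwise the table. -/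
def UC1_stmt : Prop :=
  ∀ (N M n k : ℕ) (E W : Finset ℕ) (PP : List (Finset ℕ))
    (Tl : List (Finset ℕ × List (Finset ℕ × List ℕ))) (h : helper81.BS.WF n E)
    (T : BS.TR M n k (3 * k)), Hyp N M n k E W PP Tl h T →
    ∀ C ∈ PP, ∀ P ⊆ helper81.BS.dl n E C,
      Rp T (elemF M n k (3 * k) E Tl C P) (BS.FR (ig n E h) T.x T.y C P)

/-- UC2. `w(S)`. Proof: UC1 (`C` nonempty), UB6, product over the duplicate free list `PP` = product over `PP.toFinset`
(`List.prod_toFinset`, UA2). -/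
def UC2_stmt : Prop :=
  ∀ (N M n k : ℕ) (E W : Finset ℕ) (PP : List (Finset ℕ))
    (Tl : List (Finset ℕ × List (Finset ℕ × List ℕ))) (h : helper81.BS.WF n E)
    (T : BS.TR M n k (3 * k)), Hyp N M n k E W PP Tl h T →
    ∀ S, Rp T (wT N M n k (3 * k) E Tl PP S) (BS.wR (ig n E h) T.x T.y PP.toFinset S)

/-- UC3. `Z_U`. Proof: UC2, UB1, UB3, UB5, UB6 (sum over the duplicate free list `psub N U` = sum over
`U.powerset`), TB5. -/
def UC3_stmt : Prop :=
  ∀ (N M n k : ℕ) (E W : Finset ℕ) (PP : List (Finset ℕ))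
    (Tl : List (Finset ℕ × List (Finset ℕ × List ℕ))) (h : helper81.BS.WF n E)
    (T : BS.TR M n k (3 * k)), Hyp N M n k E W PP Tl h T →
    ∀ U ⊆ helper81.BS.beta n E W PP, U.card ≤ 6 * k + 1 →
      Rp T (ZT N M n k (3 * k) E Tl PP U)
        (∑ A ∈ ((ig n E h).X0 W).powerset with A.toRight ∩ helper81.BS.beta n E W PP ⊆ U,
          BS.om (ig n E h) W (helper81.BS.beta n E W PP) T.x T.y T.u A)

/-- UC4. Constant coefficients. Proof: `cf 0 0 0` of the sum is the number of sets `A` of the sum with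
`nW = 0`, `cW = 0`, `bB = 0` (`cf_mon`): only `A = ∅` (a nonempty `A ⊆ X0 W` has a vertex of `W`, or an edge with an end in `W`
outside `A`). -/
def UC4_stmt : Prop :=
  ∀ (M n k l : ℕ) (T : BS.TR M n k l) (g : BS.IG) (W β U : Finset ℕ),
    T.cf 0 0 0 (∑ A ∈ (g.X0 W).powerset with A.toRight ∩ β ⊆ U, BS.om g W β T.x T.y T.u A) = 1

/-- UC5. Moebius factors. Proof: UC3 for the subsets of `Q`, UB6, UB7 (the constant coefficient of the product of
the odd factors is `1`: `cf_mul` at `0 0 0`, UC4), UB5; `mob Z Q` is the even product times the inverse of the odd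
product (parity of `card (Q \ Q')`: `eqb (m % 2) 0 = true` iff `Even m`). -/
def UC5_stmt : Prop :=
  ∀ (N M n k : ℕ) (E W : Finset ℕ) (PP : List (Finset ℕ))
    (Tl : List (Finset ℕ × List (Finset ℕ × List ℕ))) (h : helper81.BS.WF n E)
    (T : BS.TR M n k (3 * k)) (Z : Finset ℕ → T.Rˣ), Hyp N M n k E W PP Tl h T →
    (∀ U, (Z U : T.R) =
      ∑ A ∈ ((ig n E h).X0 W).powerset with A.toRight ∩ helper81.BS.beta n E W PP ⊆ U,
        BS.om (ig n E h) W (helper81.BS.beta n E W PP) T.x T.y T.u A) →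
    ∀ Q ⊆ helper81.BS.beta n E W PP, Q.card ≤ 6 * k + 1 →
      Rp T (mT N M n k (3 * k) E Tl PP Q) (BS.mob Z Q : T.Rˣ)

/-- UC6. The list of traces. Proof. Small `beta`: UB1. Large `beta`: `dedup`; for `R ∈ allImp` (A8) tightness gives
`card (tch n beta R) = tt ≤ dd R ≤ 2 k`, UB1; the trace of `K` is in the list by TC3 with `LL = allImp N n E W (2 * k)` (A8, UA1 - UA4). -/
def UC6_stmt : Prop :=
  ∀ (N M n k : ℕ) (E W : Finset ℕ) (PP : List (Finset ℕ))
    (Tl : List (Finset ℕ × List (Finset ℕ × List ℕ))) (h : helper81.BS.WF n E)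
    (T : BS.TR M n k (3 * k)), Hyp N M n k E W PP Tl h T →
    (QQ N n E W k PP).Nodup ∧
    (∀ Q ∈ QQ N n E W k PP, Q ⊆ helper81.BS.beta n E W PP ∧ Q.Nonempty ∧ Q.card ≤ 6 * k + 1) ∧
    ∀ K ⊆ (ig n E h).X0 W, BS.Conn (ig n E h).adj K → (ig n E h).cW W K ≤ k →
      (K.toRight ∩ helper81.BS.beta n E W PP).card ≤ 3 * k →
      (K.toRight ∩ helper81.BS.beta n E W PP).Nonempty →
      K.toRight ∩ helper81.BS.beta n E W PP ∈ QQ N n E W k PP

/-- UC7. `H(P)`. Proof: UC5 (for `∅` : `mob Z ∅ = Z ∅`, UC3), UC6, TD4 with `QQ` the set of the elements of the list, UB6 (product over the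
duplicate free list = product over the finite set). -/
def UC7_stmt : Prop :=
  ∀ (N M n k : ℕ) (E W : Finset ℕ) (PP : List (Finset ℕ))
    (Tl : List (Finset ℕ × List (Finset ℕ × List ℕ))) (h : helper81.BS.WF n E)
    (T : BS.TR M n k (3 * k)) (Z : Finset ℕ → T.Rˣ), Hyp N M n k E W PP Tl h T →
    (∀ U, (Z U : T.R) =
      ∑ A ∈ ((ig n E h).X0 W).powerset with A.toRight ∩ helper81.BS.beta n E W PP ⊆ U,
        BS.om (ig n E h) W (helper81.BS.beta n E W PP) T.x T.y T.u A) →
    ∀ P ⊆ helper81.BS.dl n E W,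
      Rp T (HT N M n k E Tl W PP P)
        (Z (helper81.BS.beta n E W PP \ (helper81.BS.dl n E W \ P)) : T.Rˣ)

/-- UC8. `G(P)`. Proof: choose `Z` (TD2), UC7, UB1, UB4, UB6, TD3 (`dl W ⊆ beta`, TB1; `card (dl W) ≤ 2k`). -/
def UC8_stmt : Prop :=
  ∀ (N M n k : ℕ) (E W : Finset ℕ) (PP : List (Finset ℕ))
    (Tl : List (Finset ℕ × List (Finset ℕ × List ℕ))) (h : helper81.BS.WF n E)
    (T : BS.TR M n k (3 * k)), Hyp N M n k E W PP Tl h T →
    ∀ P ⊆ helper81.BS.dl n E W,
      Rp T (GT N M n k E Tl W PP P)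
        (∑ A ∈ ((ig n E h).X0 W).powerset with A.toRight ∩ (ig n E h).dl W = P,
          BS.om (ig n E h) W (helper81.BS.beta n E W PP) T.x T.y T.u A)

/-- UC9. Entries. Proof: UC8 for `P` and `dl W \ P`, TR3 (`cf` = number `cntj`), TC5, casts; `% M` gives `< M`. -/
def UC9_stmt : Prop :=
  ∀ (N M n k : ℕ) (E W : Finset ℕ) (PP : List (Finset ℕ))
    (Tl : List (Finset ℕ × List (Finset ℕ × List ℕ))) (h : helper81.BS.WF n E)
    (T : BS.TR M n k (3 * k)), Hyp N M n k E W PP Tl h T →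
    ∀ P ⊆ helper81.BS.dl n E W, ∀ a c : ℕ, a ≤ W.card → c ≤ k →
      resE N M n k E Tl W PP P a c < M ∧
      (resE N M n k E Tl W PP P a c : ZMod M) = (BS.cnt (ig n E h) W P a c : ZMod M)

/-- UC10. The ring element. Proof: UB2, UC9; `cf a c j (FR ..)` is `cnt` for `j = 0` (TR3) and `0` for `j > 0` (`cf_mon` with
`u ^ 0`), and `cnt = 0` if `a > card W`. -/
def UC10_stmt : Prop :=
  ∀ (N M n k : ℕ) (E W : Finset ℕ) (PP : List (Finset ℕ))
    (Tl : List (Finset ℕ × List (Finset ℕ × List ℕ))) (h : helper81.BS.WF n E)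
    (T : BS.TR M n k (3 * k)), Hyp N M n k E W PP Tl h T →
    ∀ P ⊆ helper81.BS.dl n E W,
      Rp T (resT N M n k E Tl W PP P) (BS.FR (ig n E h) T.x T.y W P)

/-- UND. CORRECTNESS OF `nd`. Proof: T5 (the partition is tight), UC10, UB1: in the list `psub.map (P, ..)` the first entry with
key `P` exists and is `(P, resT .. P)`. -/
def UND_stmt : Prop :=
  ∀ (N M n k : ℕ) (E W : Finset ℕ) (Tl : List (Finset ℕ × List (Finset ℕ × List ℕ)))
    (h : helper81.BS.WF n E) (T : BS.TR M n k (3 * k)), Big N n k M → 2 ≤ M →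
    W ⊆ Finset.range n → 2 ≤ W.card → helper81.BS.dd n E W ≤ 2 * k →
    (∀ C ∈ helper81.BS.tightP N n E W k, 2 ≤ C.card →
      ∃ q, Tl.find? (fun q => eqb q.1 C) = some q ∧ okT E h T C q.2) →
    okT E h T W (nd N M n k E Tl W)

/-- URD. Reading the answer. Proof: `dl (range n) = ∅`, `okT` at `P = ∅`, TR3: the coefficient is `cnt`; entries are `< M`, so an
entry is `0` iff it is `0` in `ZMod M`. -/
def URD_stmt : Prop :=
  ∀ (M n k : ℕ) (E : Finset ℕ) (h : helper81.BS.WF n E) (T : BS.TR M n k (3 * k))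
    (tab : List (Finset ℕ × List ℕ)), 2 ≤ M → okT E h T (Finset.range n) tab →
    (read n k tab = true ↔
      ∃ c ≤ k, (BS.cnt (ig n E h) (Finset.range n) ∅ (n / 2) c : ZMod M) ≠ 0)

/-- UDEC. The decision. Proof: TE1 for `V = range n`, TE2 (`cnt ≤ 2 ^ (n + card E) < 2 ^ (n + n * n + 1)`), TR4. -/
def UDEC_stmt : Prop :=
  ∀ (n k : ℕ) (E : Finset ℕ) (h : helper81.BS.WF n E),
    ((∃ M, 2 ≤ M ∧ M ≤ 2 * (n + n * n + 1) + 2 ∧
      ∃ c ≤ k, (BS.cnt (ig n E h) (Finset.range n) ∅ (n / 2) c : ZMod M) ≠ 0) ↔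
    ∃ A ⊆ Finset.range n, A.card = n / 2 ∧ helper81.BS.dd n E A ≤ k)

end Pool.Agent.helper50.BT

end
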